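import Pool.Agent.Run7.h838.KC.Gs
import Pool.Agent.Run7.h748.Sph.Main

/-! Spherical codes whose points have an atypical distribution of the coordinates. -/

open MeasureTheory ProbabilityTheory Metric Set Filter
open scoped NNReal ENNReal InnerProductSpace Topology Pointwise

namespace Run7.h838.KC

open Pool.Agent.H818R2

lemma cap_sub {n : ℕ} {θ : ℝ} {x y : E n} (hx : ‖x‖ = 1) (hs : 0 ≤ Real.sin θ) (h1 : ‖y‖ ≤ 1)
    (h2 : 1 - Real.sin θ ^ 2 ≤ ‖y‖) (hc : Real.cos θ * ‖y‖ ≤ ⟪x, y⟫_ℝ) (hcp : 0 ≤ Real.cos θ) :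
    y ∈ closedBall (Real.cos θ • x) (Real.sin θ) := by
  rw [mem_closedBall, dist_eq_norm]
  have h3 := norm_sub_sq_real y (Real.cos θ • x)
  rw [inner_smul_right, real_inner_comm, norm_smul, hx, mul_one, Real.norm_eq_abs, sq_abs] at h3
  have h4 := Real.sin_sq_add_cos_sq θ
  have h5 : ‖y - Real.cos θ • x‖ ^ 2 ≤ Real.sin θ ^ 2 := by
    rw [h3]
    have h6 : Real.cos θ * (Real.cos θ * ‖y‖) ≤ Real.cos θ * ⟪x, y⟫_ℝ :=
      mul_le_mul_of_nonneg_left hc hcp
    nlinarith [norm_nonneg y]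
  exact le_of_sq_le_sq h5 hs

/-- most of the part of a cone in the unit ball lies in a shell -/
lemma shell_part {n : ℕ} (A : Set (E n)) {r : ℝ} (hr0 : 0 < r) :
    volume.real (B n ∩ cone A) * (1 - r ^ n) ≤
      volume.real ((closedBall 0 1 \ ball 0 r) ∩ cone A) := by
  have h1 : B n ∩ cone A ⊆ ((closedBall 0 1 \ ball 0 r) ∩ cone A) ∪ (r • (B n ∩ cone A)) := by
    rintro y ⟨hy1, hy2⟩
    rw [mem_ball_zero_iff] at hy1
    by_cases hy : ‖y‖ < r
    · right
      rw [mem_smul_set_iff_inv_smul_mem₀ hr0.ne']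
      refine ⟨?_, (cone_smul A _ y (by positivity)).2 hy2⟩
      rw [mem_ball_zero_iff, norm_smul, norm_inv, Real.norm_of_nonneg hr0.le, inv_mul_lt_iff₀ hr0,
        mul_one]
      exact hy
    · left
      refine ⟨⟨?_, ?_⟩, hy2⟩
      · rw [mem_closedBall_zero_iff]; exact hy1.le
      · rw [mem_ball_zero_iff]; exact hy
  have hf : volume (r • (B n ∩ cone A)) = ENNReal.ofReal (r ^ n) * volume (B n ∩ cone A) := by
    rw [Measure.addHaar_smul, finrank_euclideanSpace_fin, abs_of_nonneg (by positivity)]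
  have hfr : volume.real (r • (B n ∩ cone A)) = r ^ n * volume.real (B n ∩ cone A) := by
    rw [measureReal_def, hf, ENNReal.toReal_mul, ENNReal.toReal_ofReal (by positivity),
      ← measureReal_def]
  have hfin1 : volume ((closedBall 0 1 \ ball 0 r) ∩ cone A) < ⊤ :=
    (measure_mono (inter_subset_left.trans sdiff_subset)).trans_lt measure_closedBall_lt_top
  have hfin2 : volume (r • (B n ∩ cone A)) < ⊤ := by
    rw [hf]
    exact ENNReal.mul_lt_top ENNReal.ofReal_lt_top (fin_inter _).lt_top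
  have h2 := (measureReal_mono (μ := volume) h1 (measure_union_lt_top hfin1 hfin2).ne).trans
    (measureReal_union_le _ _)
  rw [hfr] at h2
  linarith

lemma stat_zero {n : ℕ} (w α : Fin n → ℝ) (t u : ℝ) :
    stat w α t (0 : E n) = stat w α u (0 : E n) := by
  unfold stat
  simp only [PiLp.zero_apply, mul_zero]

lemma stat_smul {n : ℕ} {c : ℝ} (hc : c ≠ 0) (w α : Fin n → ℝ) (t : ℝ) (x : E n) :
    stat w α (t / c) (c • x) = stat w α t x := by
  unfold stat
  congr 1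
  apply Finset.sum_congr rfl
  intro i _
  congr 3
  simp only [PiLp.smul_apply, smul_eq_mul]
  field_simp

lemma g1_nonneg (n : ℕ) : 0 ≤ g1 n := by unfold g1; positivity

/-- the volume of the neighbourhood of an atypical code -/
lemma near_vol {n : ℕ} (hn : 0 < n) {θ : ℝ} (h0 : 0 < θ) (h1 : θ < Real.pi / 2) {t κ : ℝ}
    {w : Fin n → ℝ} (hw : ∀ i, |w i| ≤ 1) (α : Fin n → ℝ) (hκ : 0 < κ) {X : Finset (E n)} (hX : ∀ x ∈ X, ‖x‖ = 1)
    (hat : ∀ x ∈ X, κ ≤ Real.exp (-((t * Real.tan θ) ^ 2 / 2)) *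
      |stat w α t x - Real.exp (-(t ^ 2 / 2)) * stat w α t (0 : E n)|) :
    volume.real ((closedBall 0 1 \ ball 0 (1 - Real.sin θ ^ 2)) ∩ cone (near θ X)) ≤
      2 * g1 n * Real.exp (-(n * κ ^ 2 / 8)) * (1 + X.card * Real.sin θ ^ n) := by
  have hpi := Real.pi_pos
  have hs : 0 < Real.sin θ := Real.sin_pos_of_pos_of_lt_pi h0 (by linarith)
  have hc : 0 < Real.cos θ := Real.cos_pos_of_mem_Ioo ⟨by linarith, h1⟩
  have hsc := Real.sin_sq_add_cos_sq θ
  set c := Real.cos θ with hcdef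
  set s := Real.sin θ with hsdef
  set t' := t / c with ht'
  set m0 := Real.exp (-(t' ^ 2 * 1 ^ 2 / 2)) * stat w α t' (0 : E n) with hm0
  have hm0' : m0 = Real.exp (-(t' ^ 2 / 2)) * stat w α t (0 : E n) := by
    rw [hm0, stat_zero w α t' t, one_pow, mul_one]
  set mx : E n → ℝ := fun x => Real.exp (-(t' ^ 2 * s ^ 2 / 2)) * stat w α t' (c • x) with hmx
  have hgap : ∀ x ∈ X, κ ≤ |mx x - m0| := by
    intro x hx
    have e1 : mx x = Real.exp (-(t' ^ 2 * s ^ 2 / 2)) * stat w α t x := by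
      rw [hmx]; simp only [ht', stat_smul hc.ne']
    have e2 : m0 = Real.exp (-(t' ^ 2 * s ^ 2 / 2)) * (Real.exp (-(t ^ 2 / 2)) * stat w α t (0 : E n)) := by
      rw [hm0', ← mul_assoc, ← Real.exp_add]
      congr 2
      have : t = t' * c := by rw [ht']; field_simp
      rw [this]
      nlinarith
    have e3 : t' ^ 2 * s ^ 2 = (t * Real.tan θ) ^ 2 := by
      rw [ht', Real.tan_eq_sin_div_cos, ← hsdef, ← hcdef]
      ring
    rw [e1, e2, ← mul_sub, abs_mul, abs_of_pos (Real.exp_pos _), e3]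
    exact hat x hx
  have hsub : (closedBall (0 : E n) 1 \ ball 0 (1 - s ^ 2)) ∩ cone (near θ X) ⊆
      (closedBall (0 : E n) 1 ∩ {y : E n | κ / 2 ≤ |stat w α t' y - m0|}) ∪
      ⋃ x ∈ X, (closedBall (c • x) s ∩ {y : E n | κ / 2 ≤ |stat w α t' y - mx x|}) := by
    rintro y ⟨⟨hy1, hy2⟩, x, hx, hy3⟩
    rw [mem_closedBall_zero_iff] at hy1
    rw [mem_ball_zero_iff, not_lt] at hy2
    have hy0 : 0 < ‖y‖ := by nlinarith [pow_pos hc 2]
    have hxy : c * ‖y‖ ≤ ⟪x, y⟫_ℝ := by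
      rw [inner_smul_right] at hy3
      have := mul_lt_mul_of_pos_right hy3 hy0
      rw [mul_comm (‖y‖)⁻¹, mul_assoc, inv_mul_cancel₀ hy0.ne', mul_one] at this
      exact this.le
    have hball := cap_sub (hX x hx) hs.le hy1 hy2 hxy hc.le
    have hg := hgap x hx
    rcases le_total (κ / 2) (|stat w α t' y - m0|) with h | h
    · left
      exact ⟨by rw [mem_closedBall_zero_iff]; exact hy1, h⟩
    · right
      simp only [mem_iUnion]
      refine ⟨x, hx, hball, ?_⟩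
      show κ / 2 ≤ |stat w α t' y - mx x|
      have e : mx x - m0 = (stat w α t' y - m0) - (stat w α t' y - mx x) := by ring
      rw [e] at hg
      have := abs_sub (stat w α t' y - m0) (stat w α t' y - mx x)
      linarith
  have hfin : ∀ (a : E n) (r : ℝ) (W : Set (E n)), volume (closedBall a r ∩ W) < ⊤ := fun a r W =>
    (measure_mono inter_subset_left).trans_lt measure_closedBall_lt_top
  have h2 := measureReal_mono (μ := volume) hsub (by
    refine (measure_union_lt_top (hfin _ _ _) ?_).ne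
    exact measure_biUnion_lt_top (Finset.finite_toSet _) (fun i _ => hfin _ _ _))
  refine h2.trans ((measureReal_union_le _ _).trans ?_)
  have h3 := conc (n := n) hn one_pos hw α t' (0 : E n) (ε := κ / 2) (by positivity)
  have h4 : ∀ x ∈ X, volume.real (closedBall (c • x) s ∩ {y : E n | κ / 2 ≤ |stat w α t' y - mx x|}) ≤
      s ^ n * g1 n * (2 * Real.exp (-(n * (κ / 2) ^ 2 / 2))) := fun x _ =>
    conc hn hs hw α t' (c • x) (ε := κ / 2) (by positivity)
  have h5 := (measureReal_biUnion_finset_le (μ := volume) X (fun x =>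
    closedBall (c • x) s ∩ {y : E n | κ / 2 ≤ |stat w α t' y - mx x|})).trans (Finset.sum_le_sum h4)
  rw [Finset.sum_const, nsmul_eq_mul] at h5
  have e : (n : ℝ) * (κ / 2) ^ 2 / 2 = n * κ ^ 2 / 8 := by ring
  rw [e] at h3 h5
  have e' : (1 : ℝ) ^ n * g1 n = g1 n := by rw [one_pow, one_mul]
  rw [e'] at h3
  calc _ ≤ g1 n * (2 * Real.exp (-(n * κ ^ 2 / 8))) +
        X.card * (s ^ n * g1 n * (2 * Real.exp (-(n * κ ^ 2 / 8)))) := add_le_add h3 h5
    _ = _ := by ring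

/-- `g1` is the volume of the unit ball up to subexponential factors -/
lemma g1_le {δ : ℝ} (hδ : 0 < δ) : ∃ n0 : ℕ, ∀ n : ℕ, n0 ≤ n → 0 < n →
    g1 n ≤ Real.exp (δ * n) * vb (E n) := by
  obtain ⟨n0, h⟩ := Run7.h748.Sph.ratio_asymp hδ
  refine ⟨n0, fun n hn hpos => ?_⟩
  have h1 := h n hn hpos
  have h2 : (1 / 2 : ℝ) ^ n * Run7.h748.Sph.gc n = g1 n := by
    unfold Run7.h748.Sph.gc g1
    have h3 : √(2 * Real.pi * (4 / n)) = 2 * √(2 * Real.pi / n) := by
      rw [show 2 * Real.pi * (4 / n) = 2 ^ 2 * (2 * Real.pi / n) by ring,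
        Real.sqrt_mul (by positivity), Real.sqrt_sq (by norm_num)]
    rw [h3, mul_pow, ← mul_assoc, ← mul_assoc, ← mul_pow]
    norm_num
  rw [mul_assoc, h2, Real.exp_neg, inv_mul_le_iff₀ (Real.exp_pos _)] at h1
  exact h1

/-- **The alternative for atypical codes.** -/
theorem core {θ : ℝ} (h0 : 0 < θ) (h1 : θ < Real.pi / 2) (τ : ℝ) {η : ℝ} (hη : 0 < η) :
    ∃ n0 : ℕ, ∀ n : ℕ, n0 ≤ n → ∀ w α : Fin n → ℝ, (∀ i, |w i| ≤ 1) → ∀ t : ℝ, |t| ≤ τ →
      ∀ X : Finset (E n), IsSphCode n θ X →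
      (∀ x ∈ X, η ≤ |stat w α t x - Real.exp (-(t ^ 2 / 2)) * stat w α t (0 : E n)|) →
      Real.exp ((η * Real.exp (-((τ * Real.tan θ) ^ 2 / 2))) ^ 2 / 16 * n) *
        min (X.card : ℝ) ((1 / Real.sin θ) ^ n) ≤ sphMax n θ := by
  have hpi := Real.pi_pos
  have hs : 0 < Real.sin θ := Real.sin_pos_of_pos_of_lt_pi h0 (by linarith)
  have hc : 0 < Real.cos θ := Real.cos_pos_of_mem_Ioo ⟨by linarith, h1⟩
  have hsc := Real.sin_sq_add_cos_sq θ
  have hs2 : 0 < Real.sin (θ / 2) := Real.sin_pos_of_pos_of_lt_pi (by linarith) (by linarith)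
  have hc1 : Real.cos θ < 1 := by nlinarith
  set κ := η * Real.exp (-((τ * Real.tan θ) ^ 2 / 2)) with hκ
  have hκ0 : 0 < κ := by positivity
  obtain ⟨n1, hn1⟩ := g1_le (δ := κ ^ 2 / 32) (by positivity)
  have hlim1 : Tendsto (fun n : ℕ => (1 - Real.sin θ ^ 2) ^ n) atTop (𝓝 0) :=
    tendsto_pow_atTop_nhds_zero_of_lt_one (by nlinarith) (by nlinarith)
  have hlim2 : Tendsto (fun n : ℕ => κ ^ 2 / 32 * (n : ℝ)) atTop atTop :=
    Tendsto.const_mul_atTop (by positivity) tendsto_natCast_atTop_atTop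
  obtain ⟨n2, hn2⟩ := eventually_atTop.1 (hlim1.eventually (gt_mem_nhds (show (0 : ℝ) < 1 / 2 by
    norm_num)))
  obtain ⟨n3, hn3⟩ := eventually_atTop.1 (hlim2.eventually_ge_atTop (Real.log 64))
  refine ⟨max (max n1 n2) (max n3 1), fun n hn w α hw t ht X hX hat => ?_⟩
  have k1 : n1 ≤ n := (le_max_left _ _).trans ((le_max_left _ _).trans hn)
  have k2 : n2 ≤ n := (le_max_right _ _).trans ((le_max_left _ _).trans hn)
  have k3 : n3 ≤ n := (le_max_left _ _).trans ((le_max_right _ _).trans hn)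
  have hpos : 0 < n := lt_of_lt_of_le one_pos ((le_max_right _ _).trans ((le_max_right _ _).trans hn))
  have : NeZero n := ⟨hpos.ne'⟩
  have hv := vb_pos (E := E n)
  have hnR : (0 : ℝ) < n := by exact_mod_cast hpos
  have hat' : ∀ x ∈ X, κ ≤ Real.exp (-((t * Real.tan θ) ^ 2 / 2)) *
      |stat w α t x - Real.exp (-(t ^ 2 / 2)) * stat w α t (0 : E n)| := by
    intro x hx
    have e1 : Real.exp (-((τ * Real.tan θ) ^ 2 / 2)) ≤ Real.exp (-((t * Real.tan θ) ^ 2 / 2)) := by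
      apply Real.exp_le_exp.2
      have : t ^ 2 ≤ τ ^ 2 := by
        rw [← sq_abs t]
        exact pow_le_pow_left₀ (abs_nonneg _) ht 2
      have h2 : t ^ 2 * Real.tan θ ^ 2 ≤ τ ^ 2 * Real.tan θ ^ 2 :=
        mul_le_mul_of_nonneg_right this (sq_nonneg _)
      rw [mul_pow, mul_pow]
      linarith
    calc κ = Real.exp (-((τ * Real.tan θ) ^ 2 / 2)) * η := by rw [hκ]; ring
      _ ≤ Real.exp (-((t * Real.tan θ) ^ 2 / 2)) * η := mul_le_mul_of_nonneg_right e1 hη.le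
      _ ≤ _ := mul_le_mul_of_nonneg_left (hat x hx) (Real.exp_pos _).le
  have hvol := near_vol hpos h0 h1 hw α hκ0 hX.1 hat'
  have hshell := shell_part (near θ X) (r := 1 - Real.sin θ ^ 2) (by nlinarith)
  have hhalf := hn2 n k2
  have hBv : volume.real (B n) = vb (E n) := by
    rw [vol_ball 0 one_pos, one_pow, one_mul]
  have hg := hn1 n k1 hpos
  set Z : ℝ := 1 + X.card * Real.sin θ ^ n with hZ
  have hZ0 : 0 < Z := by positivity
  set e8 := Real.exp (-(n * κ ^ 2 / 8)) with he8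
  have he8p : 0 < e8 := Real.exp_pos _
  -- the measure of the neighbourhood
  have hp : volume.real (B n ∩ cone (near θ X)) ≤
      (4 * Real.exp (κ ^ 2 / 32 * n) * e8 * Z) * volume.real (B n) := by
    rw [hBv]
    have a1 : volume.real (B n ∩ cone (near θ X)) * (1 / 2) ≤
        volume.real (B n ∩ cone (near θ X)) * (1 - (1 - Real.sin θ ^ 2) ^ n) :=
      mul_le_mul_of_nonneg_left (by linarith) measureReal_nonneg
    have a2 : 2 * g1 n * e8 * Z ≤ 2 * (Real.exp (κ ^ 2 / 32 * n) * vb (E n)) * e8 * Z := by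
      gcongr
    nlinarith [a1, a2, hshell, hvol]
  have hM := greedy hpos hs2 hc1 hX (p := 4 * Real.exp (κ ^ 2 / 32 * n) * e8 * Z) (by positivity)
    (by rw [hBv]; exact hv) hp
  set M : ℝ := (sphMax n θ : ℝ) with hMdef
  have hM0 : 0 ≤ M := Nat.cast_nonneg _
  have hmin : min (X.card : ℝ) ((1 / Real.sin θ) ^ n) * Z ≤ 2 * X.card := by
    have hcard : (0 : ℝ) ≤ X.card := Nat.cast_nonneg _
    have hsn : 0 < Real.sin θ ^ n := pow_pos hs n
    have b1 : min (X.card : ℝ) ((1 / Real.sin θ) ^ n) ≤ X.card := min_le_left _ _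
    have b2 : min (X.card : ℝ) ((1 / Real.sin θ) ^ n) * Real.sin θ ^ n ≤ 1 := by
      calc _ ≤ (1 / Real.sin θ) ^ n * Real.sin θ ^ n :=
            mul_le_mul_of_nonneg_right (min_le_right _ _) hsn.le
        _ = 1 := by rw [← mul_pow, one_div, inv_mul_cancel₀ hs.ne', one_pow]
    have b3 := mul_le_mul_of_nonneg_left b2 hcard
    rw [hZ]
    nlinarith
  have h64 : 64 ≤ Real.exp (κ ^ 2 / 32 * n) := by
    rw [← Real.exp_log (show (0 : ℝ) < 64 by norm_num)]
    exact Real.exp_le_exp.2 (hn3 n k3)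
  have hfin : min (X.card : ℝ) ((1 / Real.sin θ) ^ n) ≤
      64 * Real.exp (κ ^ 2 / 32 * n) * e8 * M := by
    have c1 : min (X.card : ℝ) ((1 / Real.sin θ) ^ n) * Z ≤
        (64 * Real.exp (κ ^ 2 / 32 * n) * e8 * M) * Z := by
      calc _ ≤ 2 * (X.card : ℝ) := hmin
        _ ≤ 2 * (8 * (4 * Real.exp (κ ^ 2 / 32 * n) * e8 * Z) * M) := by linarith
        _ = _ := by ring
    exact le_of_mul_le_mul_right c1 hZ0
  calc Real.exp (κ ^ 2 / 16 * n) * min (X.card : ℝ) ((1 / Real.sin θ) ^ n)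
      ≤ Real.exp (κ ^ 2 / 16 * n) * (64 * Real.exp (κ ^ 2 / 32 * n) * e8 * M) :=
        mul_le_mul_of_nonneg_left hfin (Real.exp_pos _).le
    _ ≤ Real.exp (κ ^ 2 / 16 * n) *
          (Real.exp (κ ^ 2 / 32 * n) * Real.exp (κ ^ 2 / 32 * n) * e8 * M) := by gcongr
    _ = M := by
        have : Real.exp (κ ^ 2 / 16 * n) *
          (Real.exp (κ ^ 2 / 32 * n) * Real.exp (κ ^ 2 / 32 * n) * e8) = 1 := by
          rw [he8, ← Real.exp_add, ← Real.exp_add, ← Real.exp_add]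
          rw [show κ ^ 2 / 16 * n + (κ ^ 2 / 32 * n + κ ^ 2 / 32 * n + -(n * κ ^ 2 / 8)) = (0 : ℝ) by
            ring, Real.exp_zero]
        rw [← mul_assoc, this, one_mul]

end Run7.h838.KC
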