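import Pool.Agent.Run7.h838.KC.Int

/-! Criteria for the exponents. -/

open Filter Set
open scoped Topology

namespace Run7.h838.KC

open Pool.Agent.H818R2 Run7.h838.KO

/-- the exponent of the classical lower bound `(1 / sin θ)^n` -/
noncomputable def capExp (θ : ℝ) : ℝ := Real.logb 2 (1 / Real.sin θ)

lemma intMax_pos {n m : ℕ} (hn : 0 < n) (hm : 0 < m) (θ : ℝ) : 1 ≤ intMax n m θ :=
  (orbMax_pos hn hm θ).trans orb_le_int

lemma rate_ineq {θ : ℝ} (h0 : 0 < θ) (h1 : θ < Real.pi / 2) {m : ℕ} (hm : 0 < m) :
    ∀ᶠ n : ℕ in atTop, min (intRate θ m n) (capExp θ) + gain θ m / Real.log 2 ≤ codeRate θ n := by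
  have hpi := Real.pi_pos
  have hs : 0 < Real.sin θ := Real.sin_pos_of_pos_of_lt_pi h0 (by linarith)
  have hl2 : 0 < Real.log 2 := Real.log_pos (by norm_num)
  filter_upwards [int_bound h0 h1 m, eventually_gt_atTop 0] with n hn hpos
  have hnR : (0 : ℝ) < n := by exact_mod_cast hpos
  have hI : (1 : ℝ) ≤ intMax n m θ := by exact_mod_cast intMax_pos hpos hm θ
  have hG : 0 < (1 / Real.sin θ) ^ n := by positivity
  have hmin : 0 < min (intMax n m θ : ℝ) ((1 / Real.sin θ) ^ n) := lt_min (by linarith) hG
  have h2 := Real.log_le_log (by positivity) hn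
  rw [Real.log_mul (Real.exp_pos _).ne' hmin.ne', Real.log_exp] at h2
  have h3 : n * Real.log 2 * min (intRate θ m n) (capExp θ) ≤
      Real.log (min (intMax n m θ : ℝ) ((1 / Real.sin θ) ^ n)) := by
    rcases le_total (intMax n m θ : ℝ) ((1 / Real.sin θ) ^ n) with h | h
    · rw [min_eq_left h]
      calc n * Real.log 2 * min (intRate θ m n) (capExp θ) ≤ n * Real.log 2 * intRate θ m n :=
            mul_le_mul_of_nonneg_left (min_le_left _ _) (by positivity)
        _ = Real.log (intMax n m θ) := by
            unfold intRate Real.logb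
            field_simp
    · rw [min_eq_right h]
      calc n * Real.log 2 * min (intRate θ m n) (capExp θ) ≤ n * Real.log 2 * capExp θ :=
            mul_le_mul_of_nonneg_left (min_le_right _ _) (by positivity)
        _ = Real.log ((1 / Real.sin θ) ^ n) := by
            rw [Real.log_pow]
            unfold capExp Real.logb
            field_simp
  have h4 : n * Real.log 2 * (min (intRate θ m n) (capExp θ) + gain θ m / Real.log 2) ≤
      n * Real.log 2 * codeRate θ n := by
    have e1 : n * Real.log 2 * codeRate θ n = Real.log (sphMax n θ) := by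
      unfold codeRate Real.logb
      field_simp
    have e2 : n * Real.log 2 * (gain θ m / Real.log 2) = gain θ m * n := by field_simp
    rw [e1, mul_add, e2]
    linarith
  exact le_of_mul_le_mul_left h4 (by positivity)

lemma intRate_bds {θ : ℝ} (h0 : 0 < θ) (h1 : θ < Real.pi / 2) {m n : ℕ} (hn : 0 < n)
    (hm : 0 < m) : 0 ≤ intRate θ m n ∧ orbRate θ m n ≤ intRate θ m n ∧
      intRate θ m n ≤ codeRate θ n := by
  have hpi := Real.pi_pos
  have hs2 : 0 < Real.sin (θ / 2) := Real.sin_pos_of_pos_of_lt_pi (by linarith) (by linarith)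
  have hs : 0 < Real.sin θ := Real.sin_pos_of_pos_of_lt_pi h0 (by linarith)
  have hc1 : Real.cos θ < 1 := by
    have := Real.sin_sq_add_cos_sq θ
    have hc : 0 < Real.cos θ := Real.cos_pos_of_mem_Ioo ⟨by linarith, h1⟩
    nlinarith
  have hnR : (0 : ℝ) < n := by exact_mod_cast hn
  have hO := orbMax_pos (n := n) (m := m) hn hm θ
  have hOI := orb_le_int (n := n) (m := m) (θ := θ)
  have hI := hO.trans hOI
  have hIS := int_le_sph (n := n) (m := m) hn hs2 hc1
  refine ⟨?_, ?_, ?_⟩
  · unfold intRate
    exact div_nonneg (Real.logb_nonneg (by norm_num) (by exact_mod_cast hI)) hnR.le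
  · unfold orbRate intRate
    apply div_le_div_of_nonneg_right _ hnR.le
    apply Real.logb_le_logb_of_le (by norm_num) (by exact_mod_cast hO)
    exact_mod_cast hOI
  · unfold codeRate intRate
    apply div_le_div_of_nonneg_right _ hnR.le
    apply Real.logb_le_logb_of_le (by norm_num) (by exact_mod_cast hI)
    exact_mod_cast hIS

/-- comparison of upper and lower limits -/
lemma lim_min {u v : ℕ → ℝ} {B G g : ℝ} (hu : ∀ᶠ n in atTop, 0 ≤ u n)
    (huv : ∀ᶠ n in atTop, u n ≤ v n) (hv : ∀ᶠ n in atTop, v n ≤ B)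
    (h : ∀ᶠ n in atTop, min (u n) G + g ≤ v n) :
    min (limsup u atTop) G + g ≤ limsup v atTop ∧
    min (liminf u atTop) G + g ≤ liminf v atTop := by
  have bu : IsBoundedUnder (· ≥ ·) atTop u := isBoundedUnder_of_eventually_ge hu
  have bu' : IsBoundedUnder (· ≤ ·) atTop u := by
    apply isBoundedUnder_of_eventually_le (a := B)
    filter_upwards [hv, huv] with n hn hn1
    exact hn1.trans hn
  have bv : IsBoundedUnder (· ≥ ·) atTop v := by
    apply isBoundedUnder_of_eventually_ge (a := 0)
    filter_upwards [hu, huv] with n hn hn1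
    exact hn.trans hn1
  have bv' : IsBoundedUnder (· ≤ ·) atTop v := isBoundedUnder_of_eventually_le hv
  constructor
  · apply le_of_forall_pos_le_add
    intro ε hε
    have h1 : ∃ᶠ n in atTop, limsup u atTop - ε < u n :=
      frequently_lt_of_lt_limsup (bu.isCoboundedUnder_le) (by linarith)
    have h2 : ∃ᶠ n in atTop, min (limsup u atTop) G + g - ε ≤ v n := by
      refine (h1.and_eventually h).mono fun n hn => ?_
      refine le_trans ?_ hn.2
      have := hn.1
      rcases le_total (u n) G with h3 | h3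
      · rw [min_eq_left h3]
        have := min_le_left (limsup u atTop) G
        linarith
      · rw [min_eq_right h3]
        have := min_le_right (limsup u atTop) G
        linarith
    have h3 := le_limsup_of_frequently_le h2 bv'
    linarith
  · apply le_of_forall_pos_le_add
    intro ε hε
    have h1 : ∀ᶠ n in atTop, liminf u atTop - ε < u n :=
      eventually_lt_of_lt_liminf (by linarith) bu
    have h2 : ∀ᶠ n in atTop, min (liminf u atTop) G + g - ε ≤ v n := by
      filter_upwards [h1, h] with n hn hn2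
      refine le_trans ?_ hn2
      rcases le_total (u n) G with h3 | h3
      · rw [min_eq_left h3]
        have := min_le_left (liminf u atTop) G
        linarith
      · rw [min_eq_right h3]
        have := min_le_right (liminf u atTop) G
        linarith
    have h3 := le_liminf_of_le (bv'.isCoboundedUnder_ge) h2
    linarith

lemma lim_ineq {θ : ℝ} (h0 : 0 < θ) (h1 : θ < Real.pi / 2) {m : ℕ} (hm : 0 < m) :
    min (limsup (intRate θ m) atTop) (capExp θ) + gain θ m / Real.log 2 ≤
      limsup (codeRate θ) atTop ∧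
    min (liminf (intRate θ m) atTop) (capExp θ) + gain θ m / Real.log 2 ≤
      liminf (codeRate θ) atTop := by
  have hpi := Real.pi_pos
  have hs2 : 0 < Real.sin (θ / 2) := Real.sin_pos_of_pos_of_lt_pi (by linarith) (by linarith)
  apply lim_min (B := Real.logb 2 ((1 + 2 * Real.sin (θ / 2)) / Real.sin (θ / 2)))
  · filter_upwards [eventually_gt_atTop 0] with n hn
    exact (intRate_bds h0 h1 hn hm).1
  · filter_upwards [eventually_gt_atTop 0] with n hn
    exact (intRate_bds h0 h1 hn hm).2.2
  · exact Eventually.of_forall (codeRate_le hs2)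
  · exact rate_ineq h0 h1 hm

lemma orb_int_lim {θ : ℝ} (h0 : 0 < θ) (h1 : θ < Real.pi / 2) {m : ℕ} (hm : 0 < m) :
    limsup (orbRate θ m) atTop ≤ limsup (intRate θ m) atTop ∧
    liminf (orbRate θ m) atTop ≤ liminf (intRate θ m) atTop := by
  have hpi := Real.pi_pos
  have hs2 : 0 < Real.sin (θ / 2) := Real.sin_pos_of_pos_of_lt_pi (by linarith) (by linarith)
  have b1 : IsBoundedUnder (· ≥ ·) atTop (orbRate θ m) := by
    apply isBoundedUnder_of_eventually_ge (a := 0)
    filter_upwards [eventually_gt_atTop 0] with n hn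
    exact (orbRate_le hs2 hn hm).1
  have b2 : IsBoundedUnder (· ≤ ·) atTop (intRate θ m) := by
    apply isBoundedUnder_of_eventually_le
      (a := Real.logb 2 ((1 + 2 * Real.sin (θ / 2)) / Real.sin (θ / 2)))
    filter_upwards [eventually_gt_atTop 0] with n hn
    exact (intRate_bds h0 h1 hn hm).2.2.trans (codeRate_le hs2 n)
  have h : ∀ᶠ n in atTop, orbRate θ m n ≤ intRate θ m n := by
    filter_upwards [eventually_gt_atTop 0] with n hn
    exact (intRate_bds h0 h1 hn hm).2.1
  exact ⟨limsup_le_limsup h b1.isCoboundedUnder_le b2,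
    liminf_le_liminf h b1 b2.isCoboundedUnder_ge⟩

/-- **The criterion for the upper exponent.** -/
theorem crit_sup {θ : ℝ} (h0 : 0 < θ) (h1 : θ < Real.pi / 2) :
    (capExp θ < limsup (codeRate θ) atTop ↔ ∃ m : ℕ, capExp θ ≤ limsup (orbRate θ m) atTop) ∧
    (capExp θ < limsup (codeRate θ) atTop ↔
      ∃ m : ℕ, 0 < m ∧ capExp θ - gain θ m / Real.log 2 < limsup (intRate θ m) atTop) := by
  have hl2 : 0 < Real.log 2 := Real.log_pos (by norm_num)
  have a1 : capExp θ < limsup (codeRate θ) atTop →
      ∃ m : ℕ, 0 < m ∧ capExp θ ≤ limsup (orbRate θ m) atTop := by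
    intro h
    have h2 := ((tendsto_lims h0 h1).1.eventually (lt_mem_nhds h)).and (eventually_gt_atTop 0)
    obtain ⟨m, hm, hm0⟩ := h2.exists
    exact ⟨m, hm0, hm.le⟩
  have a2 : (∃ m : ℕ, 0 < m ∧ capExp θ - gain θ m / Real.log 2 < limsup (intRate θ m) atTop) →
      capExp θ < limsup (codeRate θ) atTop := by
    rintro ⟨m, hm0, hm⟩
    have h2 := (lim_ineq h0 h1 hm0).1
    have hg : 0 < gain θ m / Real.log 2 := div_pos (gain_pos θ m) hl2
    rcases le_total (limsup (intRate θ m) atTop) (capExp θ) with h3 | h3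
    · rw [min_eq_left h3] at h2
      linarith
    · rw [min_eq_right h3] at h2
      linarith
  have a3 : ∀ m : ℕ, 0 < m → capExp θ ≤ limsup (orbRate θ m) atTop →
      capExp θ - gain θ m / Real.log 2 < limsup (intRate θ m) atTop := by
    intro m hm0 hm
    have hg : 0 < gain θ m / Real.log 2 := div_pos (gain_pos θ m) hl2
    have := (orb_int_lim h0 h1 hm0).1
    linarith
  refine ⟨⟨fun h => ?_, ?_⟩, ⟨fun h => ?_, a2⟩⟩
  · obtain ⟨m, -, hm⟩ := a1 h
    exact ⟨m, hm⟩
  · rintro ⟨m, hm⟩
    rcases Nat.eq_zero_or_pos m with rfl | hm0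
    · -- for `m = 0` there are no codes at all
      exfalso
      have hz : ∀ n, orbRate θ 0 n = 0 := by
        intro n
        have : orbMax n 0 θ = 0 := by
          apply Nat.eq_zero_of_le_zero
          apply csSup_le (orb_nonempty n 0 θ)
          rintro k ⟨C, hC, rfl⟩
          rw [Nat.le_zero, Finset.card_eq_zero, Finset.eq_empty_iff_forall_notMem]
          intro x hx
          apply (hC.1 x hx).1
          funext i
          have := (hC.1 x hx).2 i
          simpa using this
        unfold orbRate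
        rw [this]
        simp
      have h2 : orbRate θ 0 = fun _ => (0 : ℝ) := funext hz
      rw [h2, limsup_const] at hm
      have hs : 0 < Real.sin θ := Real.sin_pos_of_pos_of_lt_pi h0 (by linarith [Real.pi_pos])
      have hc : 0 < Real.cos θ := Real.cos_pos_of_mem_Ioo ⟨by linarith [Real.pi_pos], h1⟩
      have hs1 : Real.sin θ < 1 := by
        have := Real.sin_sq_add_cos_sq θ
        nlinarith
      have : 0 < capExp θ := Real.logb_pos (by norm_num) (by rw [one_lt_div hs]; exact hs1)
      linarith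
    · exact a2 ⟨m, hm0, a3 m hm0 hm⟩
  · obtain ⟨m, hm0, hm⟩ := a1 h
    exact ⟨m, hm0, a3 m hm0 hm⟩

/-- **The criterion for the lower exponent.** -/
theorem crit_inf {θ : ℝ} (h0 : 0 < θ) (h1 : θ < Real.pi / 2) :
    (capExp θ < liminf (codeRate θ) atTop ↔ ∃ m : ℕ, capExp θ ≤ liminf (orbRate θ m) atTop) ∧
    (capExp θ < liminf (codeRate θ) atTop ↔
      ∃ m : ℕ, 0 < m ∧ capExp θ - gain θ m / Real.log 2 < liminf (intRate θ m) atTop) := by
  have hl2 : 0 < Real.log 2 := Real.log_pos (by norm_num)
  have a1 : capExp θ < liminf (codeRate θ) atTop →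
      ∃ m : ℕ, 0 < m ∧ capExp θ ≤ liminf (orbRate θ m) atTop := by
    intro h
    have h2 := ((tendsto_lims h0 h1).2.eventually (lt_mem_nhds h)).and (eventually_gt_atTop 0)
    obtain ⟨m, hm, hm0⟩ := h2.exists
    exact ⟨m, hm0, hm.le⟩
  have a2 : (∃ m : ℕ, 0 < m ∧ capExp θ - gain θ m / Real.log 2 < liminf (intRate θ m) atTop) →
      capExp θ < liminf (codeRate θ) atTop := by
    rintro ⟨m, hm0, hm⟩
    have h2 := (lim_ineq h0 h1 hm0).2
    have hg : 0 < gain θ m / Real.log 2 := div_pos (gain_pos θ m) hl2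
    rcases le_total (liminf (intRate θ m) atTop) (capExp θ) with h3 | h3
    · rw [min_eq_left h3] at h2
      linarith
    · rw [min_eq_right h3] at h2
      linarith
  have a3 : ∀ m : ℕ, 0 < m → capExp θ ≤ liminf (orbRate θ m) atTop →
      capExp θ - gain θ m / Real.log 2 < liminf (intRate θ m) atTop := by
    intro m hm0 hm
    have hg : 0 < gain θ m / Real.log 2 := div_pos (gain_pos θ m) hl2
    have := (orb_int_lim h0 h1 hm0).2
    linarith
  refine ⟨⟨fun h => ?_, ?_⟩, ⟨fun h => ?_, a2⟩⟩
  · obtain ⟨m, -, hm⟩ := a1 h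
    exact ⟨m, hm⟩
  · rintro ⟨m, hm⟩
    rcases Nat.eq_zero_or_pos m with rfl | hm0
    · exfalso
      have hz : ∀ n, orbRate θ 0 n = 0 := by
        intro n
        have : orbMax n 0 θ = 0 := by
          apply Nat.eq_zero_of_le_zero
          apply csSup_le (orb_nonempty n 0 θ)
          rintro k ⟨C, hC, rfl⟩
          rw [Nat.le_zero, Finset.card_eq_zero, Finset.eq_empty_iff_forall_notMem]
          intro x hx
          apply (hC.1 x hx).1
          funext i
          have := (hC.1 x hx).2 i
          simpa using this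
        unfold orbRate
        rw [this]
        simp
      have h2 : orbRate θ 0 = fun _ => (0 : ℝ) := funext hz
      rw [h2, liminf_const] at hm
      have hs : 0 < Real.sin θ := Real.sin_pos_of_pos_of_lt_pi h0 (by linarith [Real.pi_pos])
      have hc : 0 < Real.cos θ := Real.cos_pos_of_mem_Ioo ⟨by linarith [Real.pi_pos], h1⟩
      have hs1 : Real.sin θ < 1 := by
        have := Real.sin_sq_add_cos_sq θ
        nlinarith
      have : 0 < capExp θ := Real.logb_pos (by norm_num) (by rw [one_lt_div hs]; exact hs1)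
      linarith
    · exact a2 ⟨m, hm0, a3 m hm0 hm⟩
  · obtain ⟨m, hm0, hm⟩ := a1 h
    exact ⟨m, hm0, a3 m hm0 hm⟩

end Run7.h838.KC
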