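import Pool.Agent.Run7.h838.KC.Core

/-! Families of tests and the distribution of the coordinates. -/

open MeasureTheory ProbabilityTheory Metric Set Filter
open scoped NNReal ENNReal InnerProductSpace Topology

namespace Run7.h838.KC

open Pool.Agent.H818R2

/-- Exponentially many tests in exponentially many frames. -/
theorem family {θ : ℝ} (h0 : 0 < θ) (h1 : θ < Real.pi / 2) (τ : ℝ) {η c : ℝ} (hη : 0 < η)
    (hc : c = (η * Real.exp (-((τ * Real.tan θ) ^ 2 / 2))) ^ 2 / 32) :
    ∃ n0 : ℕ, ∀ n : ℕ, n0 ≤ n → ∀ (ι : Type) [Fintype ι], (Fintype.card ι : ℝ) ≤ Real.exp (c * n) →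
      ∀ (g : ι → (E n ≃ₗᵢ[ℝ] E n)) (w α : ι → Fin n → ℝ) (t : ι → ℝ),
      (∀ j i, |w j i| ≤ 1) → (∀ j, |t j| ≤ τ) → ∀ X : Finset (E n), IsSphCode n θ X →
      (∀ x ∈ X, ∃ j, η ≤ |stat (w j) (α j) (t j) (g j x) -
        Real.exp (-(t j ^ 2 / 2)) * stat (w j) (α j) (t j) (0 : E n)|) →
      Real.exp (c * n) * min (X.card : ℝ) ((1 / Real.sin θ) ^ n) ≤ sphMax n θ := by
  classical
  obtain ⟨n0, h⟩ := core h0 h1 τ hη
  refine ⟨n0, fun n hn ι _ hι g w α t hw ht X hX hat => ?_⟩
  have hs : 0 < Real.sin θ := Real.sin_pos_of_pos_of_lt_pi h0 (by linarith [Real.pi_pos])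
  have hG : (0 : ℝ) ≤ (1 / Real.sin θ) ^ n := by positivity
  rcases X.eq_empty_or_nonempty with rfl | hne
  · rw [Finset.card_empty, Nat.cast_zero, min_eq_left hG, mul_zero]
    exact Nat.cast_nonneg _
  have hι0 : Nonempty ι := by
    obtain ⟨x, hx⟩ := hne
    obtain ⟨j, -⟩ := hat x hx
    exact ⟨j⟩
  have hN1 : (1 : ℝ) ≤ Fintype.card ι := by exact_mod_cast Fintype.card_pos
  set P : ι → E n → Prop := fun j x => η ≤ |stat (w j) (α j) (t j) (g j x) -
        Real.exp (-(t j ^ 2 / 2)) * stat (w j) (α j) (t j) (0 : E n)| with hP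
  obtain ⟨j, hj⟩ : ∃ j : ι, (X.card : ℝ) ≤ Fintype.card ι * (X.filter (P j)).card := by
    by_contra hcon
    push Not at hcon
    have h2 : X.card ≤ ∑ j, (X.filter (P j)).card := by
      calc X.card ≤ (Finset.univ.biUnion (fun j => X.filter (P j))).card := by
            apply Finset.card_le_card
            intro x hx
            obtain ⟨j, hj⟩ := hat x hx
            exact Finset.mem_biUnion.2 ⟨j, Finset.mem_univ _, Finset.mem_filter.2 ⟨hx, hj⟩⟩
        _ ≤ _ := Finset.card_biUnion_le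
    have h3 : (X.card : ℝ) ≤ ∑ j, ((X.filter (P j)).card : ℝ) := by exact_mod_cast h2
    have h4 : ∑ j : ι, (Fintype.card ι : ℝ) * ((X.filter (P j)).card : ℝ) <
        ∑ _j : ι, (X.card : ℝ) :=
      Finset.sum_lt_sum_of_nonempty Finset.univ_nonempty fun j _ => hcon j
    rw [← Finset.mul_sum, Finset.sum_const, nsmul_eq_mul, Finset.card_univ] at h4
    have h5 := mul_le_mul_of_nonneg_left h3 (Nat.cast_nonneg (α := ℝ) (Fintype.card ι))
    linarith
  set Y := (X.filter (P j)).image (g j) with hY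
  have hYc : Y.card = (X.filter (P j)).card := Finset.card_image_of_injective _ (g j).injective
  have hYcode : IsSphCode n θ Y := by
    constructor
    · intro u hu
      obtain ⟨x, hx, rfl⟩ := Finset.mem_image.1 hu
      rw [LinearIsometryEquiv.norm_map]
      exact hX.1 x (Finset.mem_filter.1 hx).1
    · intro u hu v hv huv
      obtain ⟨x, hx, rfl⟩ := Finset.mem_image.1 hu
      obtain ⟨y, hy, rfl⟩ := Finset.mem_image.1 hv
      rw [LinearIsometryEquiv.inner_map_map]
      exact hX.2 x (Finset.mem_filter.1 hx).1 y (Finset.mem_filter.1 hy).1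
        (fun hh => huv (by rw [hh]))
  have hcore := h n hn (w j) (α j) (hw j) (t j) (ht j) Y hYcode (by
    intro u hu
    obtain ⟨x, hx, rfl⟩ := Finset.mem_image.1 hu
    exact (Finset.mem_filter.1 hx).2)
  have hmin : min (X.card : ℝ) ((1 / Real.sin θ) ^ n) ≤
      Fintype.card ι * min (Y.card : ℝ) ((1 / Real.sin θ) ^ n) := by
    rcases le_total (Y.card : ℝ) ((1 / Real.sin θ) ^ n) with h2 | h2
    · rw [min_eq_left h2, hYc]
      exact (min_le_left _ _).trans hj
    · rw [min_eq_right h2]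
      calc min (X.card : ℝ) ((1 / Real.sin θ) ^ n) ≤ 1 * (1 / Real.sin θ) ^ n := by
            rw [one_mul]; exact min_le_right _ _
        _ ≤ _ := mul_le_mul_of_nonneg_right hN1 hG
  have hm0 : 0 ≤ min (Y.card : ℝ) ((1 / Real.sin θ) ^ n) := le_min (Nat.cast_nonneg _) hG
  calc Real.exp (c * n) * min (X.card : ℝ) ((1 / Real.sin θ) ^ n)
      ≤ Real.exp (c * n) * (Real.exp (c * n) * min (Y.card : ℝ) ((1 / Real.sin θ) ^ n)) := by
        apply mul_le_mul_of_nonneg_left _ (Real.exp_pos _).le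
        exact hmin.trans (mul_le_mul_of_nonneg_right hι hm0)
    _ = Real.exp ((η * Real.exp (-((τ * Real.tan θ) ^ 2 / 2))) ^ 2 / 16 * n) *
          min (Y.card : ℝ) ((1 / Real.sin θ) ^ n) := by
        rw [← mul_assoc, ← Real.exp_add]
        congr 2
        rw [hc]; ring
    _ ≤ _ := hcore

/-- the uniform distribution on the `n` numbers `√n x_i` -/
noncomputable def coordLaw {n : ℕ} (x : E n) : Measure ℝ :=
  (n : ℝ≥0∞)⁻¹ • ∑ i, Measure.dirac (√n * x i)

lemma coordLaw_prob {n : ℕ} (hn : 0 < n) (x : E n) : IsProbabilityMeasure (coordLaw x) := by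
  constructor
  unfold coordLaw
  rw [Measure.smul_apply, Measure.finset_sum_apply]
  simp only [measure_univ, Finset.sum_const, Finset.card_univ, Fintype.card_fin, nsmul_eq_mul,
    mul_one, smul_eq_mul]
  exact ENNReal.inv_mul_cancel (by exact_mod_cast hn.ne') (ENNReal.natCast_ne_top n)

lemma coordLaw_char {n : ℕ} (x : E n) (t : ℝ) :
    charFun (coordLaw x) t = (∑ i, Complex.exp (((t * √n * x i : ℝ)) * Complex.I)) / n := by
  rw [charFun_apply_real]
  unfold coordLaw
  rw [integral_smul_measure, integral_finset_sum_measure]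
  · rw [Finset.sum_congr rfl (fun i _ => integral_dirac _ _)]
    rw [ENNReal.toReal_inv, ENNReal.toReal_natCast, div_eq_inv_mul, Complex.real_smul]
    push_cast
    congr 1
    apply Finset.sum_congr rfl
    intro i _
    congr 1
    ring
  · intro i _
    exact integrable_dirac (by simp)

/-- Laws far from the normal law are detected by their characteristic functions. -/
lemma exists_freq {ε : ℝ} (hε : 0 < ε) : ∃ τ η : ℝ, 0 < τ ∧ 0 < η ∧ ∀ P : Measure ℝ,
    IsProbabilityMeasure P → ε ≤ levyProkhorovDist P (gaussianReal 0 1) →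
    ∃ t : ℝ, |t| ≤ τ ∧ η ≤ ‖charFun P t - Complex.exp (-(t ^ 2 / 2 : ℝ))‖ := by
  by_contra hcon
  push Not at hcon
  have h1 : ∀ k : ℕ, ∃ P : Measure ℝ, IsProbabilityMeasure P ∧
      ε ≤ levyProkhorovDist P (gaussianReal 0 1) ∧ ∀ t : ℝ, |t| ≤ (k : ℝ) + 1 →
      ‖charFun P t - Complex.exp (-(t ^ 2 / 2 : ℝ))‖ < 1 / ((k : ℝ) + 1) := by
    intro k
    obtain ⟨P, hP, hd, hc⟩ := hcon ((k : ℝ) + 1) (1 / ((k : ℝ) + 1)) (by positivity) (by positivity)
    exact ⟨P, hP, hd, hc⟩
  choose P hP hd hc using h1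
  set μ : ℕ → ProbabilityMeasure ℝ := fun k => ⟨P k, hP k⟩ with hμ
  set γ : ProbabilityMeasure ℝ := ⟨gaussianReal 0 1, inferInstance⟩ with hγ
  have h2 : Tendsto μ atTop (𝓝 γ) := by
    apply ProbabilityMeasure.tendsto_of_tendsto_charFun
    intro t
    have e1 : charFun (γ : Measure ℝ) t = Complex.exp (-(t ^ 2 / 2 : ℝ)) := by
      show charFun (gaussianReal 0 1) t = _
      rw [charFun_gaussianReal]
      congr 1
      push_cast
      ring
    rw [e1, Metric.tendsto_atTop]
    intro δ hδ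
    obtain ⟨k1, hk1⟩ := exists_nat_gt (|t|)
    obtain ⟨k2, hk2⟩ := exists_nat_gt (1 / δ)
    refine ⟨max k1 k2, fun k hk => ?_⟩
    have a1 : (k1 : ℝ) ≤ k := by exact_mod_cast (le_max_left _ _).trans hk
    have a2 : (k2 : ℝ) ≤ k := by exact_mod_cast (le_max_right _ _).trans hk
    have a3 := hc k t (by linarith)
    rw [dist_eq_norm]
    refine lt_trans a3 ?_
    rw [div_lt_comm₀ (by positivity) hδ]
    linarith
  have h3 := (LevyProkhorov.continuous_ofMeasure_probabilityMeasure (Ω := ℝ)).tendsto γ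
  have h4 := h3.comp h2
  rw [Metric.tendsto_atTop] at h4
  obtain ⟨k, hk⟩ := h4 ε hε
  have h5 := hk k le_rfl
  have h6 : dist (LevyProkhorov.ofMeasure (μ k)) (LevyProkhorov.ofMeasure γ) =
      levyProkhorovDist (P k) (gaussianReal 0 1) := rfl
  have h7 := hd k
  rw [← h6] at h7
  exact absurd h5 (not_lt.2 h7)

/-- **Codes with atypical distributions of the coordinates.** -/
theorem atypical {θ : ℝ} (h0 : 0 < θ) (h1 : θ < Real.pi / 2) {ε : ℝ} (hε : 0 < ε) :
    ∃ c : ℝ, 0 < c ∧ ∃ n0 : ℕ, ∀ n : ℕ, n0 ≤ n → ∀ (ι : Type) [Fintype ι],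
      (Fintype.card ι : ℝ) ≤ Real.exp (c * n) →
      ∀ (g : ι → (E n ≃ₗᵢ[ℝ] E n)) (X : Finset (E n)), IsSphCode n θ X →
      (∀ x ∈ X, ∃ j, ε ≤ levyProkhorovDist (coordLaw (g j x)) (gaussianReal 0 1)) →
      Real.exp (c * n) * min (X.card : ℝ) ((1 / Real.sin θ) ^ n) ≤ sphMax n θ := by
  obtain ⟨τ, η, hτ, hη, hfr⟩ := exists_freq hε
  set c' : ℝ := (η / 4 * Real.exp (-((τ * Real.tan θ) ^ 2 / 2))) ^ 2 / 32 with hc'
  have hc'0 : 0 < c' := by positivity
  obtain ⟨n1, hn1⟩ := family h0 h1 τ (η := η / 4) (by positivity) hc'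
  set K : ℕ := ⌈16 * τ / η⌉₊ + 1 with hK
  have hlim : Tendsto (fun n : ℕ => c' / 2 * (n : ℝ)) atTop atTop :=
    Tendsto.const_mul_atTop (by positivity) tendsto_natCast_atTop_atTop
  obtain ⟨n2, hn2⟩ := eventually_atTop.1 (hlim.eventually_ge_atTop (Real.log (2 * K)))
  refine ⟨c' / 2, by positivity, max (max n1 n2) 1, fun n hn ι _ hι g X hX hat => ?_⟩
  have k1 : n1 ≤ n := (le_max_left _ _).trans ((le_max_left _ _).trans hn)
  have k2 : n2 ≤ n := (le_max_right _ _).trans ((le_max_left _ _).trans hn)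
  have hpos : 0 < n := lt_of_lt_of_le one_pos ((le_max_right _ _).trans hn)
  have hnR : (0 : ℝ) < n := by exact_mod_cast hpos
  have hK0 : (0 : ℝ) < K := by rw [hK]; positivity
  have hKe : (2 : ℝ) * K ≤ Real.exp (c' / 2 * n) := by
    rw [← Real.exp_log (show (0 : ℝ) < 2 * K by positivity)]
    exact Real.exp_le_exp.2 (hn2 n k2)
  set tt : Fin K → ℝ := fun k => -τ + k * (η / 8) with htt
  -- the tests
  have hfam := hn1 n k1 (ι × (Fin K × Bool)) (by
    rw [Fintype.card_prod, Fintype.card_prod, Fintype.card_fin, Fintype.card_bool]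
    push_cast
    calc (Fintype.card ι : ℝ) * (K * 2) = Fintype.card ι * (2 * K) := by ring
      _ ≤ Real.exp (c' / 2 * n) * Real.exp (c' / 2 * n) := by gcongr
      _ = Real.exp (c' * n) := by rw [← Real.exp_add]; congr 1; ring)
    (fun j => g j.1) (fun _ _ => 1) (fun j _ => if j.2.2 then 0 else -(Real.pi / 2))
    (fun j => max (-τ) (min τ (tt j.2.1))) (fun _ _ => by simp) (fun j => by
      rw [abs_le]
      exact ⟨le_max_left _ _, max_le (by linarith) (min_le_left _ _)⟩) X hX (by
    intro x hx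
    obtain ⟨j, hj⟩ := hat x hx
    have hprob := coordLaw_prob hpos (g j x)
    obtain ⟨t, ht, hdev⟩ := hfr (coordLaw (g j x)) hprob hj
    have hgx : ‖g j x‖ ≤ 1 := by rw [LinearIsometryEquiv.norm_map, hX.1 x hx]
    -- the frequency of the net
    obtain ⟨k, hk1, hk2⟩ : ∃ k : Fin K, |t - tt k| ≤ η / 8 ∧ |tt k| ≤ τ := by
      have ht' := abs_le.1 ht
      set k : ℕ := ⌊(t + τ) / (η / 8)⌋₊ with hk
      have b0 : 0 ≤ (t + τ) / (η / 8) := div_nonneg (by linarith) (by positivity)
      have b1 : (k : ℝ) ≤ (t + τ) / (η / 8) := Nat.floor_le b0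
      have b2 : (t + τ) / (η / 8) < k + 1 := Nat.lt_floor_add_one _
      rw [le_div_iff₀ (by positivity)] at b1
      rw [div_lt_iff₀ (by positivity)] at b2
      have b3 : k < K := by
        have : (k : ℝ) ≤ 16 * τ / η := by
          rw [le_div_iff₀ hη]
          nlinarith
        have h2 : (k : ℝ) ≤ ⌈16 * τ / η⌉₊ := this.trans (Nat.le_ceil _)
        have h3 : k ≤ ⌈16 * τ / η⌉₊ := by exact_mod_cast h2
        omega
      refine ⟨⟨k, b3⟩, ?_, ?_⟩
      · rw [htt, abs_le]
        constructor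
        · simp only; linarith
        · simp only; linarith
      · rw [htt, abs_le]
        have : (0 : ℝ) ≤ k * (η / 8) := by positivity
        constructor
        · simp only; linarith
        · simp only; linarith
    have hclamp : max (-τ) (min τ (tt k)) = tt k := by
      have := abs_le.1 hk2
      rw [min_eq_right this.2, max_eq_right this.1]
    -- real or imaginary part
    have hre : (charFun (coordLaw (g j x)) t - Complex.exp (-(t ^ 2 / 2 : ℝ))).re =
        stat (fun _ => 1) (fun _ => 0) t (g j x) -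
          Real.exp (-(t ^ 2 / 2)) * stat (fun _ => 1) (fun _ => 0) t (0 : E n) := by
      have e0 : stat (fun _ => 1) (fun _ => 0) t (0 : E n) = 1 := by
        simp [stat, hnR.ne']
      rw [e0, mul_one, coordLaw_char, Complex.sub_re]
      congr 1
      · rw [Complex.div_natCast_re, Complex.re_sum]
        unfold stat
        congr 1
        apply Finset.sum_congr rfl
        intro i _
        rw [Complex.exp_ofReal_mul_I_re, one_mul, add_zero]
      · rw [← Complex.ofReal_neg, ← Complex.ofReal_exp, Complex.ofReal_re]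
    have him : (charFun (coordLaw (g j x)) t - Complex.exp (-(t ^ 2 / 2 : ℝ))).im =
        stat (fun _ => 1) (fun _ => -(Real.pi / 2)) t (g j x) -
          Real.exp (-(t ^ 2 / 2)) * stat (fun _ => 1) (fun _ => -(Real.pi / 2)) t (0 : E n) := by
      have e0 : stat (fun _ => 1) (fun _ => -(Real.pi / 2)) t (0 : E n) = 0 := by
        simp [stat]
      rw [e0, mul_zero, sub_zero, coordLaw_char, Complex.sub_im]
      have e1 : (Complex.exp (-(t ^ 2 / 2 : ℝ))).im = 0 := by
        rw [← Complex.ofReal_neg, ← Complex.ofReal_exp, Complex.ofReal_im]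
      rw [e1, sub_zero, Complex.div_natCast_im, Complex.im_sum]
      unfold stat
      congr 1
      apply Finset.sum_congr rfl
      intro i _
      rw [Complex.exp_ofReal_mul_I_im, one_mul, ← sub_eq_add_neg, Real.cos_sub_pi_div_two]
    have hexpl : |Real.exp (-(t ^ 2 / 2)) - Real.exp (-(tt k ^ 2 / 2))| ≤ |t - tt k| := by
      have hd : ∀ u : ℝ, HasDerivAt (fun u : ℝ => Real.exp (-(u ^ 2 / 2)))
          (Real.exp (-(u ^ 2 / 2)) * (-u)) u := by
        intro u
        have := ((((hasDerivAt_id u).pow 2).div_const 2).neg).exp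
        simpa using this
      have hL := Convex.norm_image_sub_le_of_norm_hasDerivWithin_le
        (f := fun u : ℝ => Real.exp (-(u ^ 2 / 2))) (C := 1) (s := univ) (x := tt k) (y := t)
        (fun u _ => (hd u).hasDerivWithinAt) (fun u _ => by
          rw [norm_mul, norm_neg, Real.norm_of_nonneg (Real.exp_pos _).le, Real.norm_eq_abs,
            Real.exp_neg, inv_mul_le_iff₀ (Real.exp_pos _), mul_one]
          have e1 := Real.add_one_le_exp (u ^ 2 / 2)
          nlinarith [sq_nonneg (|u| - 1), sq_abs u]) convex_univ (mem_univ _) (mem_univ _)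
      rw [one_mul, Real.norm_eq_abs, Real.norm_eq_abs] at hL
      exact hL
    have key : ∀ a : ℝ, |stat (fun _ => 1) (fun _ => a) t (g j x) -
          Real.exp (-(t ^ 2 / 2)) * stat (fun _ => 1) (fun _ => a) t (0 : E n)| ≥ η / 2 →
        η / 4 ≤ |stat (fun _ => 1) (fun _ => a) (tt k) (g j x) -
          Real.exp (-(tt k ^ 2 / 2)) * stat (fun _ => 1) (fun _ => a) (tt k) (0 : E n)| := by
      intro a ha
      have f1 := stat_freq hpos (w := fun _ => 1) (fun _ => by simp) (fun _ => a) t (tt k) hgx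
      have f2 : |stat (fun _ => 1) (fun _ => a) t (0 : E n)| ≤ 1 := by
        have : stat (fun _ => 1) (fun _ => a) t (0 : E n) = Real.cos a := by
          unfold stat
          simp only [PiLp.zero_apply, mul_zero, zero_add, one_mul, Finset.sum_const,
            Finset.card_univ, Fintype.card_fin, nsmul_eq_mul]
          field_simp
        rw [this]
        exact Real.abs_cos_le_one _
      have f3 : stat (fun _ => 1) (fun _ => a) (tt k) (0 : E n) =
          stat (fun _ => 1) (fun _ => a) t (0 : E n) := stat_zero _ _ _ _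
      rw [f3]
      set S0 := stat (fun _ => 1) (fun _ => a) t (0 : E n)
      set S1 := stat (fun _ => 1) (fun _ => a) t (g j x)
      set S2 := stat (fun _ => 1) (fun _ => a) (tt k) (g j x)
      have f4 : |(Real.exp (-(t ^ 2 / 2)) - Real.exp (-(tt k ^ 2 / 2))) * S0| ≤ η / 8 := by
        rw [abs_mul]
        calc _ ≤ (η / 8) * 1 := mul_le_mul (hexpl.trans hk1) f2 (abs_nonneg _) (by positivity)
          _ = η / 8 := mul_one _
      have f5 : S1 - Real.exp (-(t ^ 2 / 2)) * S0 = (S2 - Real.exp (-(tt k ^ 2 / 2)) * S0) +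
          (S1 - S2) - (Real.exp (-(t ^ 2 / 2)) - Real.exp (-(tt k ^ 2 / 2))) * S0 := by ring
      rw [f5] at ha
      have f6 := abs_sub ((S2 - Real.exp (-(tt k ^ 2 / 2)) * S0) + (S1 - S2))
        ((Real.exp (-(t ^ 2 / 2)) - Real.exp (-(tt k ^ 2 / 2))) * S0)
      have f7 := abs_add_le (S2 - Real.exp (-(tt k ^ 2 / 2)) * S0) (S1 - S2)
      have f8 := f1.trans hk1
      linarith
    have hsplit : η / 2 ≤ |(charFun (coordLaw (g j x)) t - Complex.exp (-(t ^ 2 / 2 : ℝ))).re| ∨
        η / 2 ≤ |(charFun (coordLaw (g j x)) t - Complex.exp (-(t ^ 2 / 2 : ℝ))).im| := by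
      by_contra hh
      push Not at hh
      have := Complex.norm_le_abs_re_add_abs_im
        (charFun (coordLaw (g j x)) t - Complex.exp (-(t ^ 2 / 2 : ℝ)))
      linarith [hh.1, hh.2]
    rcases hsplit with h | h
    · refine ⟨(j, (k, true)), ?_⟩
      simp only [hclamp, if_true]
      rw [hre] at h
      exact key 0 h
    · refine ⟨(j, (k, false)), ?_⟩
      simp only [hclamp, Bool.false_eq_true, if_false]
      rw [him] at h
      exact key _ h)
  refine le_trans ?_ hfam
  have hs : 0 < Real.sin θ := Real.sin_pos_of_pos_of_lt_pi h0 (by linarith [Real.pi_pos])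
  apply mul_le_mul_of_nonneg_right _ (le_min (Nat.cast_nonneg _) (by positivity))
  apply Real.exp_le_exp.2
  nlinarith

end Run7.h838.KC
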