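import Pool.Agent.Run7.h838.KC.Rot
import Pool.Agent.H992R2.Gauss

/-! A concentration inequality on balls by comparison with Gaussian measures. -/

open MeasureTheory ProbabilityTheory Metric Set
open scoped NNReal ENNReal InnerProductSpace

namespace Run7.h838.KC

/-- the average of `w_i cos (t √n y_i + α_i)` over the coordinates -/
noncomputable def stat {n : ℕ} (w α : Fin n → ℝ) (t : ℝ) (y : E n) : ℝ :=
  (∑ i, w i * Real.cos (t * √n * y i + α i)) / n

lemma sum_abs_le {n : ℕ} (y : E n) : ∑ i, |y i| ≤ √n * ‖y‖ := by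
  have h := sq_sum_le_card_mul_sum_sq (s := (Finset.univ : Finset (Fin n))) (f := fun i => |y i|)
  rw [Finset.card_univ, Fintype.card_fin] at h
  have h2 : ∑ i, |y i| ^ 2 = ‖y‖ ^ 2 := by
    rw [EuclideanSpace.norm_sq_eq]
    simp
  rw [h2] at h
  have h3 : (∑ i, |y i|) = √((∑ i, |y i|) ^ 2) :=
    (Real.sqrt_sq (Finset.sum_nonneg fun i _ => abs_nonneg _)).symm
  rw [h3]
  calc √((∑ i, |y i|) ^ 2) ≤ √(n * ‖y‖ ^ 2) := Real.sqrt_le_sqrt h
    _ = √n * ‖y‖ := by rw [Real.sqrt_mul (Nat.cast_nonneg _), Real.sqrt_sq (norm_nonneg _)]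

lemma cos_lip (a b : ℝ) : |Real.cos a - Real.cos b| ≤ |a - b| := by
  rw [Real.cos_sub_cos, abs_mul, abs_mul, abs_neg, abs_two]
  have h1 := Real.abs_sin_le_one ((a + b) / 2)
  have h2 : |Real.sin ((a - b) / 2)| ≤ |(a - b) / 2| := Real.abs_sin_le_abs
  rw [abs_div, abs_two] at h2
  calc 2 * |Real.sin ((a + b) / 2)| * |Real.sin ((a - b) / 2)|
      ≤ 2 * 1 * (|a - b| / 2) := by gcongr
    _ = |a - b| := by ring

/-- dependence on the frequency -/
lemma stat_freq {n : ℕ} (hn : 0 < n) {w : Fin n → ℝ} (hw : ∀ i, |w i| ≤ 1) (α : Fin n → ℝ) (t u : ℝ)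
    {y : E n} (hy : ‖y‖ ≤ 1) : |stat w α t y - stat w α u y| ≤ |t - u| := by
  have hn' : (0 : ℝ) < n := by exact_mod_cast hn
  have hs : 0 < √(n : ℝ) := Real.sqrt_pos.2 hn'
  have h1 : stat w α t y - stat w α u y =
      (∑ i, w i * (Real.cos (t * √n * y i + α i) - Real.cos (u * √n * y i + α i))) / n := by
    unfold stat
    rw [← sub_div, ← Finset.sum_sub_distrib]
    congr 1
    apply Finset.sum_congr rfl
    intro i _
    ring
  rw [h1, abs_div, abs_of_pos hn', div_le_iff₀ hn']
  calc |∑ i, w i * (Real.cos (t * √n * y i + α i) - Real.cos (u * √n * y i + α i))|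
      ≤ ∑ i, |w i * (Real.cos (t * √n * y i + α i) - Real.cos (u * √n * y i + α i))| :=
        Finset.abs_sum_le_sum_abs _ _
    _ ≤ ∑ i, |t - u| * √n * |y i| := by
        apply Finset.sum_le_sum
        intro i _
        rw [abs_mul]
        calc |w i| * |Real.cos (t * √n * y i + α i) - Real.cos (u * √n * y i + α i)|
            ≤ 1 * |t * √n * y i + α i - (u * √n * y i + α i)| :=
              mul_le_mul (hw i) (cos_lip _ _) (abs_nonneg _) zero_le_one
          _ = |t - u| * √n * |y i| := by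
              have : t * √n * y i + α i - (u * √n * y i + α i) = (t - u) * √n * y i := by ring
              rw [this, one_mul, abs_mul, abs_mul, abs_of_pos hs]
    _ = |t - u| * √n * ∑ i, |y i| := by rw [Finset.mul_sum]
    _ ≤ |t - u| * √n * (√n * ‖y‖) := by
        apply mul_le_mul_of_nonneg_left (sum_abs_le _) (by positivity)
    _ ≤ |t - u| * √n * (√n * 1) := by gcongr
    _ = |t - u| * n := by
        have : √(n : ℝ) * √n = n := Real.mul_self_sqrt hn'.le
        calc |t - u| * √n * (√n * 1) = |t - u| * (√n * √n) := by ring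
          _ = _ := by rw [this]

lemma stat_cont {n : ℕ} (w α : Fin n → ℝ) (t : ℝ) : Continuous (stat w α t) := by
  unfold stat
  fun_prop

/-- the Gaussian mean of a cosine -/
lemma gauss_mean (v : ℝ≥0) (b s : ℝ) :
    ∫ x, Real.cos (b + s * x) ∂(gaussianReal 0 v) = Real.exp (-(s ^ 2 * v / 2)) * Real.cos b := by
  have h := charFun_gaussianReal (μ := 0) (v := v) s
  rw [charFun_apply_real] at h
  have hint : Integrable (fun x : ℝ => Complex.exp (s * x * Complex.I)) (gaussianReal 0 v) := by
    refine Integrable.of_bound (by fun_prop) 1 (Filter.Eventually.of_forall fun x => ?_)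
    have : (s : ℂ) * x * Complex.I = ((s * x : ℝ) : ℂ) * Complex.I := by push_cast; ring
    rw [this, Complex.norm_exp_ofReal_mul_I]
  have h2 : ∫ x, Complex.exp (b * Complex.I) * Complex.exp (s * x * Complex.I) ∂(gaussianReal 0 v) =
      Complex.exp (b * Complex.I) * Complex.exp (((-(s ^ 2 * v / 2) : ℝ)) : ℂ) := by
    rw [integral_const_mul, h]
    congr 2
    push_cast
    ring
  have h3 := congrArg Complex.re h2
  have h4 : Complex.re (∫ x, Complex.exp (b * Complex.I) * Complex.exp (s * x * Complex.I) ∂(gaussianReal 0 v)) =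
      ∫ x, Complex.re (Complex.exp (b * Complex.I) * Complex.exp (s * x * Complex.I)) ∂(gaussianReal 0 v) :=
    (integral_re (hint.const_mul _)).symm
  rw [h4] at h3
  have h5 : ∀ x : ℝ, Complex.re (Complex.exp (b * Complex.I) * Complex.exp (s * x * Complex.I)) =
      Real.cos (b + s * x) := by
    intro x
    rw [← Complex.exp_add]
    have : (b : ℂ) * Complex.I + s * x * Complex.I = ((b + s * x : ℝ) : ℂ) * Complex.I := by
      push_cast; ring
    rw [this, Complex.exp_ofReal_mul_I_re]
  simp only [h5] at h3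
  rw [h3, ← Complex.ofReal_exp, mul_comm, Complex.re_ofReal_mul, Complex.exp_ofReal_mul_I_re]

/-- `(2 π / n)^(n/2) e^(n/2)` -/
noncomputable def g1 (n : ℕ) : ℝ := √(2 * Real.pi / n) ^ n * Real.exp (n / 2)

/-- comparison of the volume on a ball with a Gaussian measure -/
lemma gauss_vol {n : ℕ} (hn : 0 < n) {R : ℝ} (hR : 0 < R) {v : ℝ≥0} (hv : (v : ℝ) = R ^ 2 / n)
    (a : E n) {W : Set (E n)} (hW : MeasurableSet W) :
    volume.real (closedBall a R ∩ W) ≤ R ^ n * g1 n *
      (Measure.pi fun _ : Fin n => gaussianReal 0 v).real {w | a + WithLp.toLp 2 w ∈ W} := by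
  have hn0 : (0 : ℝ) < n := by exact_mod_cast hn
  have hv0 : v ≠ 0 := by
    intro h
    have h1 : (v : ℝ) = 0 := by rw [h]; rfl
    rw [hv] at h1
    have : (0 : ℝ) < R ^ 2 / n := by positivity
    linarith
  set A' : Set (E n) := (fun w => a + w) ⁻¹' W with hA'
  have hA'm : MeasurableSet A' := (continuous_const_add a).measurable hW
  have h2 : volume (closedBall a R ∩ W) = volume (closedBall 0 R ∩ A') := by
    have h3 : (fun w => a + w) ⁻¹' (closedBall a R ∩ W) = closedBall 0 R ∩ A' := by
      rw [preimage_inter]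
      congr 1
      ext w
      simp [dist_eq_norm]
    rw [← h3, measure_preimage_add]
  set q : ℝ := ((√(2 * Real.pi * v))⁻¹) ^ n * Real.exp (-(n / 2)) with hq
  have hq0 : 0 < q := by
    rw [hq, hv]
    positivity
  have h4 : ENNReal.ofReal q * volume (closedBall 0 R ∩ A') ≤
      (Measure.pi fun _ : Fin n => gaussianReal 0 v) {w | a + WithLp.toLp 2 w ∈ W} := by
    have h5 : (Measure.pi fun _ : Fin n => gaussianReal 0 v) {w | a + WithLp.toLp 2 w ∈ W} =
        ((Measure.pi fun _ : Fin n => gaussianReal 0 v).map (WithLp.toLp 2)) A' := by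
      rw [Measure.map_apply (PiLp.continuous_toLp 2 _).measurable hA'm]
      rfl
    rw [h5, Pool.Agent.H992R2.map_toLp_pi_gaussian (Fin n) hv0, withDensity_apply _ hA'm]
    calc ENNReal.ofReal q * volume (closedBall 0 R ∩ A')
        = ∫⁻ _ in closedBall (0 : E n) R ∩ A', ENNReal.ofReal q := by
          rw [setLIntegral_const]
      _ ≤ ∫⁻ z in closedBall (0 : E n) R ∩ A',
            ENNReal.ofReal (Pool.Agent.H992R2.gdens (Fin n) v z) := by
          apply setLIntegral_mono' (measurableSet_closedBall.inter hA'm)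
          intro z hz
          apply ENNReal.ofReal_le_ofReal
          unfold Pool.Agent.H992R2.gdens
          rw [Fintype.card_fin, hq]
          apply mul_le_mul_of_nonneg_left _ (by positivity)
          apply Real.exp_le_exp.2
          have h6 : ‖z‖ ≤ R := by
            have := hz.1
            rwa [mem_closedBall_zero_iff] at this
          have h7 : ‖z‖ ^ 2 ≤ R ^ 2 := by nlinarith [norm_nonneg z]
          rw [hv, neg_div, neg_le_neg_iff, div_le_iff₀ (by positivity)]
          field_simp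
          linarith
      _ ≤ _ := lintegral_mono_set inter_subset_right
  have h8 : volume.real (closedBall 0 R ∩ A') ≤
      q⁻¹ * (Measure.pi fun _ : Fin n => gaussianReal 0 v).real {w | a + WithLp.toLp 2 w ∈ W} := by
    have h9 := ENNReal.toReal_mono (measure_ne_top _ _) h4
    rw [ENNReal.toReal_mul, ENNReal.toReal_ofReal hq0.le] at h9
    rw [measureReal_def, measureReal_def, le_inv_mul_iff₀ hq0]
    exact h9
  rw [measureReal_def, h2, ← measureReal_def]
  refine h8.trans (le_of_eq ?_)
  have h10 : q⁻¹ = R ^ n * g1 n := by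
    have h11 : √(2 * Real.pi * (R ^ 2 / n)) = R * √(2 * Real.pi / n) := by
      rw [show 2 * Real.pi * (R ^ 2 / n) = R ^ 2 * (2 * Real.pi / n) by ring,
        Real.sqrt_mul (by positivity), Real.sqrt_sq hR.le]
    rw [hq, hv, mul_inv, inv_pow, inv_inv, Real.exp_neg, inv_inv, h11, mul_pow, g1]
    ring
  rw [h10]

/-- **Concentration on balls.** -/
theorem conc {n : ℕ} (hn : 0 < n) {R : ℝ} (hR : 0 < R) {w : Fin n → ℝ} (hw : ∀ i, |w i| ≤ 1)
    (α : Fin n → ℝ) (t : ℝ) (a : E n) {ε : ℝ} (hε : 0 ≤ ε) :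
    volume.real (closedBall a R ∩
      {y : E n | ε ≤ |stat w α t y - Real.exp (-(t ^ 2 * R ^ 2 / 2)) * stat w α t a|}) ≤
      R ^ n * g1 n * (2 * Real.exp (-(n * ε ^ 2 / 2))) := by
  have hn0 : (0 : ℝ) < n := by exact_mod_cast hn
  set v : ℝ≥0 := Real.toNNReal (R ^ 2 / n) with hvdef
  have hv : (v : ℝ) = R ^ 2 / n := Real.coe_toNNReal _ (by positivity)
  set W : Set (E n) :=
    {y : E n | ε ≤ |stat w α t y - Real.exp (-(t ^ 2 * R ^ 2 / 2)) * stat w α t a|} with hW
  have hWm : MeasurableSet W := by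
    apply IsClosed.measurableSet
    exact isClosed_le continuous_const (by have := stat_cont w α t; fun_prop)
  have h1 := gauss_vol hn hR hv a hWm
  refine h1.trans ?_
  have hg : 0 ≤ R ^ n * g1 n := by unfold g1; positivity
  apply mul_le_mul_of_nonneg_left _ hg
  set γ := (Measure.pi fun _ : Fin n => gaussianReal 0 v) with hγ
  set f : Fin n → ℝ → ℝ := fun i x => w i * Real.cos (t * √n * a i + α i + t * √n * x) with hf
  have hfm : ∀ i, Measurable (f i) := fun i => by rw [hf]; fun_prop
  have hmean : ∀ i, ∫ z, f i (z i) ∂γ = Real.exp (-(t ^ 2 * R ^ 2 / 2)) *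
      (w i * Real.cos (t * √n * a i + α i)) := by
    intro i
    have e1 : ∫ z, f i (z i) ∂γ = ∫ x, f i x ∂(gaussianReal 0 v) := by
      have hmp := measurePreserving_eval (fun _ : Fin n => gaussianReal 0 v) i
      rw [← hmp.map_eq, integral_map hmp.measurable.aemeasurable
        (hfm i).aestronglyMeasurable]
    rw [e1]
    have e2 := gauss_mean v (t * √n * a i + α i) (t * √n)
    simp only [hf]
    rw [integral_const_mul, e2, hv]
    have e3 : (t * √n) ^ 2 * (R ^ 2 / n) / 2 = t ^ 2 * R ^ 2 / 2 := by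
      rw [mul_pow, Real.sq_sqrt hn0.le]
      field_simp
    rw [e3]
    ring
  have hsub : ∀ i, HasSubgaussianMGF (fun z : Fin n → ℝ => f i (z i) - ∫ z', f i (z' i) ∂γ)
      1 γ := by
    intro i
    have h := hasSubgaussianMGF_of_mem_Icc (μ := γ) (X := fun z : Fin n → ℝ => f i (z i))
      (a := -1) (b := 1) ((hfm i).comp (measurable_pi_apply i)).aemeasurable
      (Filter.Eventually.of_forall fun z => by
        have e1 : |f i (z i)| ≤ 1 := by
          simp only [hf]
          rw [abs_mul]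
          exact mul_le_one₀ (hw i) (abs_nonneg _) (Real.abs_cos_le_one _)
        exact abs_le.1 e1)
    have e : ((‖(1 : ℝ) - (-1)‖₊ / 2) ^ 2 : ℝ≥0) = 1 := by
      ext
      push_cast
      norm_num
    rw [e] at h
    exact h
  have hind : iIndepFun (fun i (z : Fin n → ℝ) => f i (z i) - ∫ z', f i (z' i) ∂γ) γ := by
    have := iIndepFun_pi (μ := fun _ : Fin n => gaussianReal 0 v)
      (X := fun i (x : ℝ) => f i x - ∫ z', f i (z' i) ∂γ)
      (fun i => ((hfm i).sub_const _).aemeasurable)
    exact this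
  have hind' : iIndepFun (fun i (z : Fin n → ℝ) => -(f i (z i) - ∫ z', f i (z' i) ∂γ)) γ := by
    have := iIndepFun_pi (μ := fun _ : Fin n => gaussianReal 0 v)
      (X := fun i (x : ℝ) => -(f i x - ∫ z', f i (z' i) ∂γ))
      (fun i => ((hfm i).sub_const _).neg.aemeasurable)
    exact this
  have hnε : 0 ≤ n * ε := by positivity
  have u1 := HasSubgaussianMGF.measure_sum_ge_le_of_iIndepFun hind (s := Finset.univ)
    (fun i _ => hsub i) hnε
  have u2 := HasSubgaussianMGF.measure_sum_ge_le_of_iIndepFun hind' (s := Finset.univ)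
    (fun i _ => (hsub i).neg) hnε
  have hexp : Real.exp (-(n * ε) ^ 2 / (2 * ((∑ _i : Fin n, (1 : ℝ≥0) : ℝ≥0) : ℝ))) =
      Real.exp (-(n * ε ^ 2 / 2)) := by
    congr 1
    rw [Finset.sum_const, Finset.card_univ, Fintype.card_fin]
    simp only [nsmul_eq_mul, mul_one, NNReal.coe_natCast]
    field_simp
  have hsum : ∀ z : Fin n → ℝ, n * (stat w α t (a + WithLp.toLp 2 z) -
      Real.exp (-(t ^ 2 * R ^ 2 / 2)) * stat w α t a) =
      ∑ i, (f i (z i) - ∫ z', f i (z' i) ∂γ) := by
    intro z
    rw [Finset.sum_sub_distrib, Finset.sum_congr rfl (fun i _ => hmean i), mul_sub]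
    simp only [stat, hf]
    congr 1
    · rw [mul_div_cancel₀ _ hn0.ne']
      apply Finset.sum_congr rfl
      intro i _
      congr 2
      simp only [PiLp.add_apply]
      ring
    · rw [← Finset.mul_sum]
      field_simp
  have hsubset : {z : Fin n → ℝ | a + WithLp.toLp 2 z ∈ W} ⊆
      {z | n * ε ≤ ∑ i, (f i (z i) - ∫ z', f i (z' i) ∂γ)} ∪
      {z | n * ε ≤ ∑ i, -(f i (z i) - ∫ z', f i (z' i) ∂γ)} := by
    intro z hz
    have hw1 : ε ≤ |stat w α t (a + WithLp.toLp 2 z) -
      Real.exp (-(t ^ 2 * R ^ 2 / 2)) * stat w α t a| := hz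
    have hw' := hsum z
    rcases le_abs.1 hw1 with h | h
    · left
      show n * ε ≤ _
      rw [← hw']
      exact mul_le_mul_of_nonneg_left h hn0.le
    · right
      show n * ε ≤ _
      rw [Finset.sum_neg_distrib, ← hw', ← mul_neg]
      exact mul_le_mul_of_nonneg_left h hn0.le
  refine (measureReal_mono hsubset).trans ((measureReal_union_le _ _).trans ?_)
  rw [two_mul, ← hexp]
  exact add_le_add u1 u2

end Run7.h838.KC
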