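import Pool.Agent.Run7.h838.KC.Fam
import Pool.Agent.Run7.h838.KO.Lim

/-! Spherical codes of integer vectors of bounded mean square. -/

open MeasureTheory ProbabilityTheory Metric Set Filter
open scoped NNReal ENNReal InnerProductSpace Topology

namespace Run7.h838.KC

open Pool.Agent.H818R2 Run7.h838.KO

/-- `C` is a set of nonzero integer vectors of length `n` and Euclidean norm at most `m √n`, with
mutual angles at least `θ`. -/
def IsIntCode (n m : ℕ) (θ : ℝ) (C : Finset (Fin n → ℤ)) : Prop :=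
  (∀ x ∈ C, x ≠ 0 ∧ ∑ i, x i ^ 2 ≤ (m ^ 2 * n : ℤ)) ∧
  ∀ x ∈ C, ∀ y ∈ C, x ≠ y → ((∑ i, x i * y i : ℤ) : ℝ) ≤
    Real.cos θ * (√(∑ i, x i ^ 2 : ℤ) * √(∑ i, y i ^ 2 : ℤ))

/-- the largest size of such a set -/
noncomputable def intMax (n m : ℕ) (θ : ℝ) : ℕ :=
  sSup {k | ∃ C : Finset (Fin n → ℤ), IsIntCode n m θ C ∧ C.card = k}

/-- `(1/n) log_2` of the largest size -/
noncomputable def intRate (θ : ℝ) (m n : ℕ) : ℝ := Real.logb 2 (intMax n m θ) / n

lemma int_bdd (n m : ℕ) (θ : ℝ) :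
    BddAbove {k | ∃ C : Finset (Fin n → ℤ), IsIntCode n m θ C ∧ C.card = k} := by
  classical
  refine ⟨(Fintype.piFinset (fun _ : Fin n => Finset.Icc (-(m ^ 2 * n : ℤ)) (m ^ 2 * n))).card, ?_⟩
  rintro k ⟨C, hC, rfl⟩
  apply Finset.card_le_card
  intro x hx
  rw [Fintype.mem_piFinset]
  intro i
  rw [Finset.mem_Icc]
  have h1 := (hC.1 x hx).2
  have h2 : x i ^ 2 ≤ ∑ i, x i ^ 2 :=
    Finset.single_le_sum (f := fun i => x i ^ 2) (fun j _ => sq_nonneg _) (Finset.mem_univ i)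
  have h3 : x i ^ 2 ≤ (m ^ 2 * n : ℤ) := h2.trans h1
  have h4 : |x i| ≤ x i ^ 2 := by
    rw [← sq_abs]
    have := abs_nonneg (x i)
    rcases eq_or_lt_of_le this with h | h
    · rw [← h]; norm_num
    · nlinarith
  exact abs_le.1 (h4.trans h3)

lemma int_nonempty (n m : ℕ) (θ : ℝ) :
    {k | ∃ C : Finset (Fin n → ℤ), IsIntCode n m θ C ∧ C.card = k}.Nonempty :=
  ⟨0, ∅, ⟨by simp, by simp⟩, by simp⟩

lemma le_intMax {n m : ℕ} {θ : ℝ} {C : Finset (Fin n → ℤ)} (hC : IsIntCode n m θ C) :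
    C.card ≤ intMax n m θ := le_csSup (int_bdd n m θ) ⟨C, hC, rfl⟩

lemma exists_int (n m : ℕ) (θ : ℝ) : ∃ C : Finset (Fin n → ℤ), IsIntCode n m θ C ∧
    C.card = intMax n m θ := Nat.sSup_mem (int_nonempty n m θ) (int_bdd n m θ)

/-- orbit codes are integer codes -/
lemma orb_le_int {n m : ℕ} {θ : ℝ} : orbMax n m θ ≤ intMax n m θ := by
  apply csSup_le (orb_nonempty n m θ)
  rintro k ⟨C, hC, rfl⟩
  apply le_intMax
  refine ⟨fun x hx => ⟨(hC.1 x hx).1, ?_⟩, fun x hx y hy hxy => ?_⟩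
  · calc ∑ i, x i ^ 2 ≤ ∑ _i : Fin n, (m ^ 2 : ℤ) := by
          apply Finset.sum_le_sum
          intro i _
          have := (hC.1 x hx).2 i
          rw [← sq_abs]
          exact pow_le_pow_left₀ (abs_nonneg _) this 2
      _ = (m ^ 2 * n : ℤ) := by
          rw [Finset.sum_const, Finset.card_univ, Fintype.card_fin, nsmul_eq_mul]; ring
  · obtain ⟨σ, hσ⟩ := hC.2.1 x hx y hy
    have h1 := hC.2.2 x hx y hy hxy
    rw [sum_sq_perm hσ, Real.mul_self_sqrt]
    · exact h1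
    · exact_mod_cast Finset.sum_nonneg fun i _ => sq_nonneg (x i)

/-- the direction of an integer vector -/
noncomputable def dir {n : ℕ} (x : Fin n → ℤ) : E n :=
  (1 / √(∑ i, x i ^ 2 : ℤ)) • (WithLp.toLp 2 (fun i => (x i : ℝ)))

lemma sq_pos {n : ℕ} {x : Fin n → ℤ} (hx : x ≠ 0) : 0 < ∑ i, x i ^ 2 := by
  obtain ⟨i, hi⟩ := Function.ne_iff.1 hx
  have hi' : x i ≠ 0 := hi
  apply Finset.sum_pos' (fun i _ => sq_nonneg _)
  exact ⟨i, Finset.mem_univ _, by positivity⟩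

lemma dir_inner {n : ℕ} (x y : Fin n → ℤ) :
    ⟪dir x, dir y⟫_ℝ = ((∑ i, x i * y i : ℤ) : ℝ) /
      (√(∑ i, x i ^ 2 : ℤ) * √(∑ i, y i ^ 2 : ℤ)) := by
  unfold dir
  simp only [inner_smul_left, inner_smul_right, PiLp.inner_apply, RCLike.inner_apply,
    conj_trivial]
  have : ((∑ i, x i * y i : ℤ) : ℝ) = ∑ i, (y i : ℝ) * (x i : ℝ) := by
    rw [Int.cast_sum]
    apply Finset.sum_congr rfl
    intro i _
    push_cast
    ring
  rw [this]
  field_simp

lemma dir_norm {n : ℕ} {x : Fin n → ℤ} (hx : x ≠ 0) : ‖dir x‖ = 1 := by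
  have h1 : (0 : ℝ) < (∑ i, x i ^ 2 : ℤ) := by exact_mod_cast sq_pos hx
  have h2 : ‖dir x‖ ^ 2 = 1 := by
    rw [← real_inner_self_eq_norm_sq, dir_inner, Real.mul_self_sqrt h1.le]
    have : (∑ i, x i * x i) = ∑ i, x i ^ 2 := Finset.sum_congr rfl fun i _ => by ring
    rw [this, div_self h1.ne']
  nlinarith [norm_nonneg (dir x)]

lemma int_code [DecidableEq (E 0)] {n m : ℕ} {θ : ℝ} (hθ : Real.cos θ < 1) {C : Finset (Fin n → ℤ)}
    (hC : IsIntCode n m θ C) : ∃ X : Finset (E n), IsSphCode n θ X ∧ X.card = C.card ∧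
      ∀ u ∈ X, ∃ x ∈ C, u = dir x := by
  classical
  have hle : ∀ x ∈ C, ∀ y ∈ C, x ≠ y → ⟪dir x, dir y⟫_ℝ ≤ Real.cos θ := by
    intro x hx y hy hxy
    have p1 : (0 : ℝ) < (∑ i, x i ^ 2 : ℤ) := by exact_mod_cast sq_pos (hC.1 x hx).1
    have p2 : (0 : ℝ) < (∑ i, y i ^ 2 : ℤ) := by exact_mod_cast sq_pos (hC.1 y hy).1
    rw [dir_inner, div_le_iff₀ (mul_pos (Real.sqrt_pos.2 p1) (Real.sqrt_pos.2 p2))]
    exact hC.2 x hx y hy hxy
  refine ⟨C.image dir, ⟨?_, ?_⟩, ?_, ?_⟩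
  · intro u hu
    obtain ⟨x, hx, rfl⟩ := Finset.mem_image.1 hu
    exact dir_norm (hC.1 x hx).1
  · intro u hu v hv huv
    obtain ⟨x, hx, rfl⟩ := Finset.mem_image.1 hu
    obtain ⟨y, hy, rfl⟩ := Finset.mem_image.1 hv
    exact hle x hx y hy (fun h => huv (by rw [h]))
  · apply Finset.card_image_of_injOn
    intro x hx y hy hxy
    by_contra hne
    have h1 := hle x hx y hy hne
    have h2 : dir x = dir y := hxy
    rw [← h2, real_inner_self_eq_norm_sq, dir_norm (hC.1 x hx).1] at h1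
    linarith
  · intro u hu
    obtain ⟨x, hx, rfl⟩ := Finset.mem_image.1 hu
    exact ⟨x, hx, rfl⟩

lemma int_le_sph {n m : ℕ} (hn : 0 < n) {θ : ℝ} (hs : 0 < Real.sin (θ / 2))
    (hθ : Real.cos θ < 1) : intMax n m θ ≤ sphMax n θ := by
  classical
  have : NeZero n := ⟨hn.ne'⟩
  obtain ⟨C, hC, hcard⟩ := exists_int n m θ
  obtain ⟨X, hX, hXc, -⟩ := int_code hθ hC
  rw [← hcard, ← hXc]
  exact le_sphMax hs hX

/-- the exponent of the gain -/
noncomputable def gain (θ : ℝ) (m : ℕ) : ℝ :=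
  Real.exp (-((1 + 2 * Real.pi * m) * Real.tan θ) ^ 2) / 250

lemma gain_pos (θ : ℝ) (m : ℕ) : 0 < gain θ m := by unfold gain; positivity

/-- the frequency used for integer vectors with sum of squares `N` -/
noncomputable def freq (n N : ℕ) : ℝ :=
  2 * Real.pi * ⌈1 / (2 * Real.pi * √(N / n))⌉₊ * √(N / n)

lemma freq_low {n N : ℕ} (hn : 0 < n) (hN : 0 < N) : 1 ≤ freq n N := by
  have hn' : (0 : ℝ) < n := by exact_mod_cast hn
  have hN' : (0 : ℝ) < N := by exact_mod_cast hN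
  have hs : 0 < √((N : ℝ) / n) := Real.sqrt_pos.2 (by positivity)
  have h1 := Nat.le_ceil (1 / (2 * Real.pi * √((N : ℝ) / n)))
  have hpi := Real.pi_pos
  have h2 := mul_le_mul_of_nonneg_right h1 (show 0 ≤ 2 * Real.pi * √((N : ℝ) / n) by positivity)
  have h3 : 1 / (2 * Real.pi * √((N : ℝ) / n)) * (2 * Real.pi * √((N : ℝ) / n)) = 1 := by
    field_simp
  rw [h3] at h2
  unfold freq
  linarith

lemma freq_abs {n N m : ℕ} (hn : 0 < n) (hN : N ≤ m ^ 2 * n) :
    |freq n N| ≤ 1 + 2 * Real.pi * m := by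
  have hn' : (0 : ℝ) < n := by exact_mod_cast hn
  have hpi := Real.pi_pos
  have h0 : 0 ≤ freq n N := by unfold freq; positivity
  rw [abs_of_nonneg h0]
  rcases Nat.eq_zero_or_pos N with rfl | hN0
  · unfold freq
    simp only [Nat.cast_zero, zero_div, Real.sqrt_zero, mul_zero]
    positivity
  · have hN' : (0 : ℝ) < N := by exact_mod_cast hN0
    have hs : 0 < √((N : ℝ) / n) := Real.sqrt_pos.2 (by positivity)
    have h1 := Nat.ceil_lt_add_one (show 0 ≤ 1 / (2 * Real.pi * √((N : ℝ) / n)) by positivity)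
    have h2 := mul_lt_mul_of_pos_right h1 (show 0 < 2 * Real.pi * √((N : ℝ) / n) by positivity)
    have h2' : 1 / (2 * Real.pi * √((N : ℝ) / n)) * (2 * Real.pi * √((N : ℝ) / n)) = 1 := by
      field_simp
    rw [add_mul, h2', one_mul] at h2
    have h3 : √((N : ℝ) / n) ≤ m := by
      rw [← Real.sqrt_sq (Nat.cast_nonneg m)]
      apply Real.sqrt_le_sqrt
      rw [div_le_iff₀ hn']
      exact_mod_cast hN
    have h4 : 2 * Real.pi * √((N : ℝ) / n) ≤ 2 * Real.pi * m :=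
      mul_le_mul_of_nonneg_left h3 (by positivity)
    unfold freq
    linarith

/-- integer vectors are atypical -/
lemma stat_dir {n : ℕ} (hn : 0 < n) {x : Fin n → ℤ} (hx : x ≠ 0) {N : ℕ}
    (hN : (N : ℤ) = ∑ i, x i ^ 2) :
    stat (fun _ => 1) (fun _ => 0) (freq n N) (dir x) = 1 := by
  have hn' : (0 : ℝ) < n := by exact_mod_cast hn
  have hp : (0 : ℝ) < (∑ i, x i ^ 2 : ℤ) := by exact_mod_cast sq_pos hx
  have hNR : (N : ℝ) = ((∑ i, x i ^ 2 : ℤ) : ℝ) := by rw [← hN]; push_cast; rfl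
  have hN0 : (0 : ℝ) < N := by rw [hNR]; exact hp
  have hsN : 0 < √(N : ℝ) := Real.sqrt_pos.2 hN0
  have hsn : 0 < √(n : ℝ) := Real.sqrt_pos.2 hn'
  unfold stat
  have h1 : ∀ i, (1 : ℝ) * Real.cos (freq n N * √n * (dir x) i + 0) = 1 := by
    intro i
    rw [one_mul, add_zero]
    have h2 : freq n N * √n * (dir x) i =
        (((⌈1 / (2 * Real.pi * √((N : ℝ) / n))⌉₊ : ℤ) * x i : ℤ) : ℝ) * (2 * Real.pi) := by
      unfold freq dir
      simp only [PiLp.smul_apply, smul_eq_mul]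
      rw [← hNR]
      have h3 : √((N : ℝ) / n) = √N / √n := Real.sqrt_div hN0.le _
      set K := ⌈1 / (2 * Real.pi * √((N : ℝ) / n))⌉₊
      rw [h3]
      push_cast
      field_simp
    rw [h2, Real.cos_int_mul_two_pi]
  rw [Finset.sum_congr rfl (fun i _ => h1 i)]
  simp only [Finset.sum_const, Finset.card_univ, Fintype.card_fin, nsmul_eq_mul, mul_one]
  exact div_self hn'.ne'

/-- **Codes of integer vectors of bounded mean square.** -/
theorem int_bound {θ : ℝ} (h0 : 0 < θ) (h1 : θ < Real.pi / 2) (m : ℕ) :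
    ∀ᶠ n : ℕ in atTop, Real.exp (gain θ m * n) *
      min (intMax n m θ : ℝ) ((1 / Real.sin θ) ^ n) ≤ sphMax n θ := by
  classical
  have hpi := Real.pi_pos
  have hs : 0 < Real.sin θ := Real.sin_pos_of_pos_of_lt_pi h0 (by linarith)
  have hc : 0 < Real.cos θ := Real.cos_pos_of_mem_Ioo ⟨by linarith, h1⟩
  have hsc := Real.sin_sq_add_cos_sq θ
  have hc1 : Real.cos θ < 1 := by nlinarith
  set τ : ℝ := 1 + 2 * Real.pi * m with hτ
  set η : ℝ := 1 - Real.exp (-(1 / 2)) with hη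
  have he : Real.exp (-(1 / 2)) ≤ 0.61 := by
    have h2 : Real.exp (-(1 / 2)) ^ 2 = Real.exp (-1) := by
      rw [← Real.exp_nat_mul]; norm_num
    have h3 : Real.exp (-1) ≤ 0.368 := by
      have := Real.exp_neg_one_lt_d9
      linarith
    nlinarith [Real.exp_pos (-(1 / 2) : ℝ)]
  have hη0 : 0.39 ≤ η := by rw [hη]; linarith
  have hη00 : 0 < η := by linarith
  obtain ⟨n0, h⟩ := family h0 h1 τ hη00 rfl
  set c : ℝ := (η * Real.exp (-((τ * Real.tan θ) ^ 2 / 2))) ^ 2 / 32 with hcdef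
  have hc0 : 0 < c := by positivity
  have hgc : gain θ m ≤ c := by
    have e1 : c = η ^ 2 / 32 * Real.exp (-(τ * Real.tan θ) ^ 2) := by
      rw [hcdef, mul_pow, ← Real.exp_nat_mul]
      have : ((2 : ℕ) : ℝ) * -((τ * Real.tan θ) ^ 2 / 2) = -(τ * Real.tan θ) ^ 2 := by
        push_cast; ring
      rw [this]
      ring
    rw [e1]
    unfold gain
    rw [div_eq_inv_mul]
    apply mul_le_mul_of_nonneg_right _ (Real.exp_pos _).le
    nlinarith
  have hlim : Tendsto (fun n : ℕ => Real.exp (c * n) / (n : ℝ)) atTop atTop := by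
    have h2 := (tendsto_exp_mul_div_rpow_atTop 1 c hc0).comp tendsto_natCast_atTop_atTop
    refine h2.congr fun n => ?_
    simp
  filter_upwards [eventually_ge_atTop n0, eventually_gt_atTop 0,
    hlim.eventually_ge_atTop ((m : ℝ) ^ 2 + 1)] with n hn hpos hexp
  have hnR : (0 : ℝ) < n := by exact_mod_cast hpos
  obtain ⟨C, hC, hcard⟩ := exists_int n m θ
  obtain ⟨X, hX, hXc, hXd⟩ := int_code hc1 hC
  have hfin := h n hn (Fin (m ^ 2 * n + 1)) (by
    rw [Fintype.card_fin]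
    rw [le_div_iff₀ hnR] at hexp
    push_cast
    have : (1 : ℝ) ≤ n := by exact_mod_cast hpos
    nlinarith) (fun _ => LinearIsometryEquiv.refl ℝ (E n)) (fun _ _ => 1) (fun _ _ => 0)
    (fun j => freq n j) (fun _ _ => by simp)
    (fun j => freq_abs hpos (Nat.lt_succ_iff.1 j.2)) X hX (by
    intro u hu
    obtain ⟨x, hx, rfl⟩ := hXd u hu
    have hx0 := (hC.1 x hx).1
    have hxN := (hC.1 x hx).2
    have hp := sq_pos hx0
    obtain ⟨N, hN⟩ := Int.eq_ofNat_of_zero_le hp.le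
    have hNle : N ≤ m ^ 2 * n := by
      rw [hN] at hxN
      exact_mod_cast hxN
    have hN0 : 0 < N := by
      rw [hN] at hp
      exact_mod_cast hp
    refine ⟨⟨N, Nat.lt_succ_of_le hNle⟩, ?_⟩
    simp only [LinearIsometryEquiv.coe_refl, id_eq]
    have e1 := stat_dir hpos hx0 (N := N) hN.symm
    have e2 : stat (fun _ => 1) (fun _ => 0) (freq n N) (0 : E n) = 1 := by
      simp [stat, hnR.ne']
    rw [e1, e2, mul_one]
    have e3 := freq_low hpos hN0
    have e4 : Real.exp (-(freq n N ^ 2 / 2)) ≤ Real.exp (-(1 / 2)) := by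
      apply Real.exp_le_exp.2
      nlinarith
    exact (show η ≤ 1 - Real.exp (-(freq n N ^ 2 / 2)) by rw [hη]; linarith).trans (le_abs_self _))
  rw [hXc, hcard] at hfin
  refine le_trans ?_ hfin
  apply mul_le_mul_of_nonneg_right _ (le_min (Nat.cast_nonneg _) (by positivity))
  apply Real.exp_le_exp.2
  exact mul_le_mul_of_nonneg_right hgc hnR.le

end Run7.h838.KC
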