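import Pool.Agent.H818R2.Kiss4
import Pool.Agent.Helper843.SphB

/-! Unions of random rotations of a spherical code. -/

open MeasureTheory Metric Set
open scoped InnerProductSpace ENNReal

namespace Run7.h838.KC

open Pool.Agent.H818R2

/-- Euclidean space -/
abbrev E (n : ℕ) := EuclideanSpace ℝ (Fin n)

section Gen

open Pool.Agent.Helper843.Haar Pool.Agent.Helper843.SphB

attribute [local instance] compactSpace_UG secondCountable_UG measUG borelUG

variable {V : Type*} [NormedAddCommGroup V] [InnerProductSpace ℝ V] [CompleteSpace V]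
  [FiniteDimensional ℝ V] [MeasurableSpace V] [BorelSpace V]

theorem avg_all {n : ℕ} (hn : Module.finrank ℝ V = n + 1)
    (W : Set V) (hW : MeasurableSet W) (hcone : ∀ (r : ℝ) (z : V), 0 < r → (r • z ∈ W ↔ z ∈ W))
    {ι : Type*} [Fintype ι] (p : ι → V) (hp : ∀ i, ‖p i‖ = 1)
    (k : ℝ≥0∞) (hk : ∀ L : V ≃ₗᵢ[ℝ] V, k ≤ ∑ i, W.indicator (fun _ => (1 : ℝ≥0∞)) (L (p i))) :
    k * volume (Metric.ball (0 : V) 1) ≤
      (Fintype.card ι : ℝ≥0∞) * volume (W ∩ Metric.ball (0 : V) 1) := by
  have hm : Measurable (W.indicator (fun _ => (1 : ℝ≥0∞))) := measurable_const.indicator hW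
  have hm2 : ∀ i, Measurable (fun Q : unitary (V →L[ℝ] V) =>
      W.indicator (fun _ => (1 : ℝ≥0∞)) (act Q (p i))) := by
    intro i
    have hc1 : Continuous (fun Q : unitary (V →L[ℝ] V) => ((Q, p i) : unitary (V →L[ℝ] V) × V)) :=
      continuous_id.prodMk continuous_const
    have hc := act_continuous.comp hc1
    exact hm.comp hc.measurable
  have e1 : ∑ i, avg W (p i) = ∫⁻ Q, ∑ i, W.indicator (fun _ => (1 : ℝ≥0∞)) (act Q (p i))
      ∂(Measure.haar : Measure (unitary (V →L[ℝ] V))) :=
    (lintegral_finsetSum (μ := (Measure.haar : Measure (unitary (V →L[ℝ] V)))) Finset.univ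
      (f := fun i Q => W.indicator (fun _ => (1 : ℝ≥0∞)) (act Q (p i))) (fun i _ => hm2 i)).symm
  have e2 : k * tot V = ∫⁻ _, k ∂(Measure.haar : Measure (unitary (V →L[ℝ] V))) :=
    (lintegral_const (μ := (Measure.haar : Measure (unitary (V →L[ℝ] V)))) k).symm
  have h1 : k * tot V ≤ ∑ i, avg W (p i) := by
    rw [e1, e2]
    refine lintegral_mono fun Q => ?_
    have := hk (Unitary.linearIsometryEquiv (Q⁻¹ : unitary (V →L[ℝ] V)))
    exact this
  have h2 : ∑ i, avg W (p i) * volume (Metric.ball (0 : V) 1) =
      ∑ i : ι, volume (W ∩ Metric.ball (0 : V) 1) * tot V :=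
    Finset.sum_congr rfl fun i _ => avg_ball hn W hW hcone (p i) (hp i)
  rw [← Finset.sum_mul, Finset.sum_const, nsmul_eq_mul, Finset.card_univ, ← mul_assoc] at h2
  have h3 : k * volume (Metric.ball (0 : V) 1) * tot V ≤
      (Fintype.card ι : ℝ≥0∞) * volume (W ∩ Metric.ball (0 : V) 1) * tot V := by
    rw [← h2]
    calc k * volume (Metric.ball (0 : V) 1) * tot V = (k * tot V) * volume (Metric.ball (0 : V) 1) := by
          ring
      _ ≤ _ := by gcongr
  exact (ENNReal.mul_le_mul_iff_left tot_ne_zero tot_ne_top).1 h3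

end Gen

/-- the points whose direction lies in `A` -/
def cone {n : ℕ} (A : Set (E n)) : Set (E n) := {y | (‖y‖)⁻¹ • y ∈ A}

lemma cone_meas {n : ℕ} {A : Set (E n)} (hA : MeasurableSet A) :
    MeasurableSet (cone A) := by
  have : Measurable (fun y : E n => (‖y‖)⁻¹ • y) := by fun_prop
  exact this hA

lemma cone_smul {n : ℕ} (A : Set (E n)) (r : ℝ) (z : E n) (hr : 0 < r) :
    r • z ∈ cone A ↔ z ∈ cone A := by
  have : (‖r • z‖)⁻¹ • r • z = (‖z‖)⁻¹ • z := by
    rw [norm_smul, Real.norm_of_nonneg hr.le, smul_smul, mul_inv]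
    congr 1
    field_simp
  simp only [cone, mem_ofPred_eq, this]

lemma cone_unit {n : ℕ} (A : Set (E n)) {z : E n} (hz : ‖z‖ = 1) : z ∈ cone A ↔ z ∈ A := by
  simp [cone, hz]

/-- the unit ball -/
abbrev B (n : ℕ) : Set (E n) := ball 0 1

lemma fin_inter {n : ℕ} (A : Set (E n)) : volume (B n ∩ A) ≠ ⊤ :=
  ((measure_mono inter_subset_left).trans_lt measure_ball_lt_top).ne

theorem exists_rot {n : ℕ} (hn : 0 < n) {A : Set (E n)}
    (hA : MeasurableSet A) (X : Finset (E n)) (hX : ∀ x ∈ X, ‖x‖ = 1) {q : ℝ} (hq : 0 ≤ q)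
    (h : X.card * volume.real (B n ∩ cone A) < q * volume.real (B n)) :
    ∃ g : E n ≃ₗᵢ[ℝ] E n, ∑ x ∈ X, indicator A (fun _ => (1 : ℝ)) (g x) < q := by
  classical
  by_contra hcon
  push Not at hcon
  have h1 := avg_all (V := E n) (n := n - 1) (by rw [finrank_euclideanSpace_fin]; omega)
    (cone A) (cone_meas hA) (fun r z hr => cone_smul A r z hr) (ι := X) (fun x => (x : E n))
    (fun x => hX x x.2) (ENNReal.ofReal q) (by
      intro L
      have e1 : ∑ x : X, (cone A).indicator (fun _ => (1 : ℝ≥0∞)) (L (x : E n)) =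
          ENNReal.ofReal (∑ x ∈ X, indicator A (fun _ => (1 : ℝ)) (L x)) := by
        rw [ENNReal.ofReal_sum_of_nonneg (fun x _ => indicator_nonneg (fun _ _ => zero_le_one) _),
          ← Finset.sum_coe_sort X (fun x => ENNReal.ofReal (indicator A (fun _ => (1 : ℝ)) (L x)))]
        apply Finset.sum_congr rfl
        intro x _
        have hu : ‖L (x : E n)‖ = 1 := by rw [LinearIsometryEquiv.norm_map]; exact hX x x.2
        by_cases hx : L (x : E n) ∈ A
        · rw [indicator_of_mem hx, indicator_of_mem ((cone_unit A hu).2 hx), ENNReal.ofReal_one]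
        · rw [indicator_of_notMem hx, indicator_of_notMem (fun hh => hx ((cone_unit A hu).1 hh)),
            ENNReal.ofReal_zero]
      rw [e1]
      exact ENNReal.ofReal_le_ofReal (hcon L))
  have h2 := ENNReal.toReal_mono (ENNReal.mul_ne_top (ENNReal.natCast_ne_top _)
    ((measure_mono inter_subset_right).trans_lt measure_ball_lt_top).ne) h1
  rw [ENNReal.toReal_mul, ENNReal.toReal_mul, ENNReal.toReal_ofReal hq, ENNReal.toReal_natCast,
    Fintype.card_coe, inter_comm, ← measureReal_def, ← measureReal_def] at h2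
  linarith

/-- the points whose inner product with some point of `X` is greater than `cos θ` -/
def near {n : ℕ} (θ : ℝ) (X : Finset (E n)) : Set (E n) := {y | ∃ x ∈ X, Real.cos θ < ⟪x, y⟫_ℝ}

lemma near_open {n : ℕ} (θ : ℝ) (X : Finset (E n)) : IsOpen (near θ X) := by
  have : near θ X = ⋃ x ∈ X, {y : E n | Real.cos θ < ⟪x, y⟫_ℝ} := by
    ext y; simp [near]
  rw [this]
  apply isOpen_biUnion
  intro x _
  exact isOpen_lt continuous_const (by fun_prop)

/-- rotations preserve the measure of the neighbourhood -/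
lemma near_rot {n : ℕ} [DecidableEq (E n)] (θ : ℝ) (X : Finset (E n)) (g : E n ≃ₗᵢ[ℝ] E n) :
    volume.real (B n ∩ cone (near θ (X.image g))) =
      volume.real (B n ∩ cone (near θ X)) := by
  have hmp : MeasurePreserving g volume volume := LinearIsometryEquiv.measurePreserving _
  have e : g ⁻¹' (B n ∩ cone (near θ (X.image g))) = B n ∩ cone (near θ X) := by
    ext y
    simp only [mem_preimage, mem_inter_iff, mem_ball_zero_iff, LinearIsometryEquiv.norm_map, cone, near,
      mem_ofPred_eq, Finset.mem_image, exists_exists_and_eq_and]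
    have : ∀ x : E n, ⟪g x, (‖y‖)⁻¹ • g y⟫_ℝ = ⟪x, (‖y‖)⁻¹ • y⟫_ℝ := by
      intro x
      rw [← map_smul, LinearIsometryEquiv.inner_map_map]
    simp only [this]
  rw [← e, measureReal_def, measureReal_def, hmp.measure_preimage
    (measurableSet_ball.inter (cone_meas (near_open _ _).measurableSet)).nullMeasurableSet]

/-- **Unions of rotated copies.** -/
theorem greedy {n : ℕ} (hn : 0 < n) {θ : ℝ} (hs : 0 < Real.sin (θ / 2)) (hθ : Real.cos θ < 1)
    {X : Finset (E n)} (hX : IsSphCode n θ X) {p : ℝ} (hp0 : 0 < p)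
    (hS : 0 < volume.real (B n))
    (hp : volume.real (B n ∩ cone (near θ X)) ≤ p * volume.real (B n)) :
    (X.card : ℝ) ≤ 8 * p * sphMax n θ := by
  classical
  have key : ∀ k : ℕ, ((k : ℝ) - 1) * p ≤ 1 / 2 → ∃ C : Finset (E n), IsSphCode n θ C ∧
      (k : ℝ) * X.card / 4 ≤ C.card ∧
      volume.real (B n ∩ cone (near θ C)) ≤ k * p * volume.real (B n) := by
    intro k
    induction k with
    | zero =>
      intro _
      refine ⟨∅, ⟨by simp, by simp⟩, by simp, ?_⟩
      have : near (n := n) θ ∅ = ∅ := by
        ext y; simp [near]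
      rw [this]
      simp [cone]
    | succ k ih =>
      intro hk
      push_cast at hk
      have hk' : (k : ℝ) * p ≤ 1 / 2 := by
        have : ((k : ℝ) + 1 - 1) * p = k * p := by ring
        linarith
      obtain ⟨C, hC, hCc, hCv⟩ := ih (by nlinarith)
      by_cases hX0 : X.card = 0
      · refine ⟨C, hC, ?_, hCv.trans ?_⟩
        · rw [hX0]; simp
        · push_cast
          nlinarith
      have hXpos : (0 : ℝ) < X.card := by exact_mod_cast Nat.pos_of_ne_zero hX0
      obtain ⟨g, hg⟩ := exists_rot hn (near_open θ C).measurableSet X hX.1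
        (q := 3 * X.card / 4) (by positivity) (by
          calc X.card * volume.real (B n ∩ cone (near θ C))
              ≤ X.card * (k * p * volume.real (B n)) :=
                mul_le_mul_of_nonneg_left hCv (Nat.cast_nonneg _)
            _ ≤ (X.card / 2) * volume.real (B n) := by
                have h0 : (0 : ℝ) ≤ X.card := Nat.cast_nonneg _
                have := mul_le_mul_of_nonneg_left (mul_le_mul_of_nonneg_right hk' hS.le) h0
                linarith
            _ < 3 * X.card / 4 * volume.real (B n) := by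
                have := mul_pos hXpos hS
                linarith)
      set Y := X.filter (fun x => g x ∉ near θ C) with hY
      have hcard : (X.card : ℝ) - Y.card = ∑ x ∈ X, indicator (near θ C) (fun _ => (1 : ℝ)) (g x) := by
        have e1 : ∑ x ∈ X, indicator (near θ C) (fun _ => (1 : ℝ)) (g x) =
            ((X.filter (fun x => g x ∈ near θ C)).card : ℝ) := by
          rw [Finset.card_filter, Nat.cast_sum]
          apply Finset.sum_congr rfl
          intro x _
          by_cases h : g x ∈ near θ C
          · rw [indicator_of_mem h, if_pos h]; simp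
          · rw [indicator_of_notMem h, if_neg h]; simp
        rw [e1]
        have e2 := Finset.card_filter_add_card_filter_not (s := X) (fun x => g x ∈ near θ C)
        have e3 : ((X.filter (fun x => g x ∈ near θ C)).card : ℝ) + Y.card = X.card := by
          exact_mod_cast e2
        linarith
      have hYc : (X.card : ℝ) / 4 ≤ Y.card := by linarith
      have hgX : IsSphCode n θ (X.image g) := by
        constructor
        · intro u hu
          obtain ⟨x, hx, rfl⟩ := Finset.mem_image.1 hu
          rw [LinearIsometryEquiv.norm_map]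
          exact hX.1 x hx
        · intro u hu v hv huv
          obtain ⟨x, hx, rfl⟩ := Finset.mem_image.1 hu
          obtain ⟨y, hy, rfl⟩ := Finset.mem_image.1 hv
          rw [LinearIsometryEquiv.inner_map_map]
          exact hX.2 x hx y hy (fun h => huv (by rw [h]))
      have hfar : ∀ x ∈ Y, ∀ c ∈ C, ⟪c, g x⟫_ℝ ≤ Real.cos θ := by
        intro x hx c hc
        have := (Finset.mem_filter.1 hx).2
        by_contra h
        exact this ⟨c, hc, not_le.1 h⟩
      have hdis : Disjoint C (Y.image g) := by
        rw [Finset.disjoint_left]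
        intro c hc hc'
        obtain ⟨x, hx, rfl⟩ := Finset.mem_image.1 hc'
        have h1 := hfar x hx _ hc
        rw [real_inner_self_eq_norm_sq, hC.1 _ hc] at h1
        linarith
      have hYX : Y ⊆ X := Finset.filter_subset _ _
      refine ⟨C ∪ Y.image g, ⟨?_, ?_⟩, ?_, ?_⟩
      · intro u hu
        rcases Finset.mem_union.1 hu with h | h
        · exact hC.1 u h
        · exact hgX.1 u (Finset.image_subset_image hYX h)
      · intro u hu v hv huv
        rcases Finset.mem_union.1 hu with h | h <;> rcases Finset.mem_union.1 hv with h' | h'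
        · exact hC.2 u h v h' huv
        · obtain ⟨x, hx, rfl⟩ := Finset.mem_image.1 h'
          exact hfar x hx u h
        · obtain ⟨x, hx, rfl⟩ := Finset.mem_image.1 h
          rw [real_inner_comm]
          exact hfar x hx v h'
        · exact hgX.2 u (Finset.image_subset_image hYX h) v (Finset.image_subset_image hYX h') huv
      · rw [Finset.card_union_of_disjoint hdis, Finset.card_image_of_injective _ g.injective]
        push_cast
        linarith
      · have h1 : B n ∩ cone (near θ (C ∪ Y.image g)) ⊆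
            (B n ∩ cone (near θ C)) ∪ (B n ∩ cone (near θ (X.image g))) := by
          rintro y ⟨hy1, c, hc, hy2⟩
          rcases Finset.mem_union.1 hc with h | h
          · exact Or.inl ⟨hy1, c, h, hy2⟩
          · exact Or.inr ⟨hy1, c, Finset.image_subset_image hYX h, hy2⟩
        have h2 := measureReal_mono (μ := volume) h1
          (measure_union_lt_top (fin_inter _).lt_top (fin_inter _).lt_top).ne
        have h3 := h2.trans (measureReal_union_le _ _)
        rw [near_rot] at h3
        push_cast
        linarith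
  set k : ℕ := ⌊1 / (2 * p)⌋₊ + 1 with hk
  have hk1 : 1 / (2 * p) ≤ (k : ℝ) := by
    rw [hk]; push_cast; exact (Nat.lt_floor_add_one _).le
  have hk2 : ((k : ℝ) - 1) * p ≤ 1 / 2 := by
    have h1 : (⌊1 / (2 * p)⌋₊ : ℝ) ≤ 1 / (2 * p) := Nat.floor_le (by positivity)
    have h2 := mul_le_mul_of_nonneg_right h1 hp0.le
    have h3 : 1 / (2 * p) * p = 1 / 2 := by field_simp
    rw [hk]; push_cast
    linarith
  obtain ⟨C, hC, hCc, -⟩ := key k hk2
  have hM : (C.card : ℝ) ≤ sphMax n θ := by
    have : NeZero n := ⟨hn.ne'⟩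
    exact_mod_cast le_sphMax hs hC
  have h1 : 1 / (2 * p) * X.card / 4 ≤ sphMax n θ := by
    calc 1 / (2 * p) * X.card / 4 ≤ k * X.card / 4 := by
          have := mul_le_mul_of_nonneg_right hk1 (Nat.cast_nonneg (α := ℝ) X.card)
          linarith
      _ ≤ _ := hCc.trans hM
  have h2 : 1 / (2 * p) * X.card / 4 = X.card / (8 * p) := by field_simp; ring
  rw [h2, div_le_iff₀ (by positivity)] at h1
  linarith

end Run7.h838.KC
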